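import Pool.Agent.H33.VW.Boxf
import Pool.Agent.H87.V0S.Sg
import Pool.Agent.H76.ST.Cle
import Pool.Agent.H72.T4C.S

/-!
# Followers of one slope and a steeper target over slope-one places: statements

Places `c 0, …, c (k - 1)` of slope one, followers `c k, …, c (k + f - 1)` of slope `al`, the target
`c (k + f)` of slope `be`, `al < be`. `u`: the unit; the windows of the charts are those of `WnT` for
the slope `al`. The target is `P = N - ∑ Mc (v - S)`: `S` the path of the follower rounded at `ns u`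
digits behind the natural ones of `w`, `Mc` its closed gradient rounded at `ym u` digits. `w₁`: the
window of the record, near `w`. `KE`: the gradients over the followers are closed. `FdE`: the followers
are far-dead. `SaE`: the side path is near. `DjE`: the codes of order `≥ 1` of the target over the far
path. `NtE`: its derivative at the time of the sample over the near path. `NlE`: no look-ahead. `RowH`:
the row of `N - ∑ Mc v` over digits of the followers; `RowE`: the row of the target. `E1Stmt`: the class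
theorem. The window of the near path is `fn n` (near `w + u`), the window of the charts of the class
theorem is `fn ks` (near `w + u / al`).
-/

set_option autoImplicit false

namespace Pool.VW33

open Finset Real MvPolynomial
open Pool.Agent.H49.Ent Pool.Agent.H32.Dense
open Pool.STK hiding pr2
open Pool.KA Pool.KSAT Pool.K2S Pool.PB Pool.S6C
open Pool.GEN Pool.CHT Pool.CHX Pool.ISO Pool.LA91 Pool.AVG71 Pool.AVG5 Pool.D2F2 Pool.AVG57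
open Pool.RCD Pool.AVG96 Pool.V0F Pool.V0S
open Pool.T4C72 (WnT RadT)
open Pool.ST76 (V0OutP)
open Pool.AJW (CfB)
open Pool.D2R (WinB hgt gnh hyb hybH)
open Pool.KVA (MI)
open Pool.PB.Trl (rt)

variable {m J : ℕ}

/-! ### The letters of one event -/

/-- The closeness of the near path. -/
def yE (k : ℕ) (φ : ℝ) : ℝ := 4 * ((k : ℝ) + 2) * φ

/-- The number of the near digits. -/
noncomputable def qE (k : ℕ) (u φ : ℝ) (J : ℕ) : ℕ := ⌊(u + 500 * yE k φ) * J⌋₊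

/-- **The charts of the frame**: the places below `k` over the window `fb 0`, the others over
`fn 0`. -/
def chE {F : Fam m J} (Gc : ℕ → PtT F → ℕ → MvPolynomial (Option (Fin m)) ℝ) (k : ℕ)
    (fb fn : ℕ → ℕ) : PtT F → ℕ → MvPolynomial (Option (Fin m)) ℝ := hyb Gc (fb 0) (fn 0) k

/-- **The labels of the frame**, functions of the line in the window `w`. -/
noncomputable def lbE {F : Fam m J} (H : ℕ → LnT F → ℕ → MvPolynomial (Option (Fin m)) ℝ) (k : ℕ)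
    (fb fn : ℕ → ℕ) (b w : ℝ) : LnT F → ℕ → MvPolynomial (Option (Fin m)) ℝ :=
  hybH H (fb 0) (fn 0) k ⌊b * J⌋₊ ⌊w * J⌋₊ ⌊w * J⌋₊

/-- The digits of the rounded paths of the followers. -/
noncomputable def nlE (J : ℕ) (ns u : ℝ) (γ : ℕ → ℕ) (l : ℕ) : ℕ := γ l + ⌊ns * u * J⌋₊

/-- **The path of the target** in the window `W`. `K`: the degree of the paths, `Km`: the degree of
the gradients `mu`, functions of the line in the window `Wm`. -/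
noncomputable def tpP (F : Fam m J) (c : ℕ → Fin m) (k f K Km : ℕ) (ns ym b w u φ : ℝ)
    (fb fn : ℕ → ℕ) (γ : ℕ → ℕ) (H : ℕ → LnT F → ℕ → MvPolynomial (Option (Fin m)) ℝ) (Wm : ℕ)
    (mu : LnT F → ℕ → Polynomial ℝ) (W : ℕ) (ω : F.Ω) : Polynomial ℝ :=
  tpE F c k (k + f) (qE k u φ J) ⌊w * J⌋₊ Wm K Km ⌊ym * u * J⌋₊ (nlE J ns u γ) γ
    (lbE H k fb fn b w) mu W ω

/-- **The value of the target.** -/
noncomputable def TVP (F : Fam m J) (c : ℕ → Fin m) (k f K Km : ℕ) (ns ym b w u φ : ℝ)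
    (fb fn : ℕ → ℕ) (γ : ℕ → ℕ) (Gc : ℕ → PtT F → ℕ → MvPolynomial (Option (Fin m)) ℝ)
    (H : ℕ → LnT F → ℕ → MvPolynomial (Option (Fin m)) ℝ) (Wm : ℕ)
    (mu : LnT F → ℕ → Polynomial ℝ) (ω : F.Ω) : ℝ :=
  TVE F c k (k + f) (qE k u φ J) ⌊w * J⌋₊ Wm K Km ⌊ym * u * J⌋₊ (nlE J ns u γ) γ
    (lbE H k fb fn b w) mu (chE Gc k fb fn) ω

/-- **The side path**: the codes of the followers and of the gradients. -/
noncomputable def sdP (F : Fam m J) (c : ℕ → Fin m) (k f K Km : ℕ) (ns ym b w u : ℝ)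
    (fb fn : ℕ → ℕ) (γ : ℕ → ℕ) (H : ℕ → LnT F → ℕ → MvPolynomial (Option (Fin m)) ℝ) (Wm : ℕ)
    (mu : LnT F → ℕ → Polynomial ℝ) (ω : F.Ω) :=
  sdE F c k (k + f) ⌊w * J⌋₊ Wm K Km ⌊ym * u * J⌋₊ (nlE J ns u γ) (lbE H k fb fn b w) mu ω

/-- The codes of the gradients. -/
noncomputable def mcP (F : Fam m J) (k f Km : ℕ) (ym u : ℝ) (Wm : ℕ)
    (mu : LnT F → ℕ → Polynomial ℝ) (ω : F.Ω) : ℕ → Fin (Km + 1) → ℤ :=
  fun l a => if k ≤ l ∧ l < k + f then rcd ⌊ym * u * J⌋₊ Km (mu (slam F Wm ω) l) a else 0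

/-- **The near path** of the slope-one places, to `d` digits behind the natural ones of `w`. -/
noncomputable def npP (F : Fam m J) (c : ℕ → Fin m) (k : ℕ) (sn : ℕ → ℝ → ℝ) (b w d : ℝ)
    (fb fn : ℕ → ℕ) (H : ℕ → LnT F → ℕ → MvPolynomial (Option (Fin m)) ℝ) (ω : F.Ω) :=
  nrP F c k sn (lbE H k fb fn b w) w d ω

/-- `N - ∑ Mc v` at the sample, in the unit `2 ^ (-(γ (k + f) + q))`. -/
noncomputable def NvP (F : Fam m J) (c : ℕ → Fin m) (k f Km : ℕ) (ym u φ : ℝ) (fb fn : ℕ → ℕ)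
    (γ : ℕ → ℕ) (Gc : ℕ → PtT F → ℕ → MvPolynomial (Option (Fin m)) ℝ) (Wm : ℕ)
    (mu : LnT F → ℕ → Polynomial ℝ) (ω : F.Ω) : ℝ :=
  2 ^ (γ (k + f) + qE k u φ J) * hgt F c (chE Gc k fb fn) ω (k + f) -
    ∑ l ∈ Finset.Ico k (k + f), (mcE F Wm Km ⌊ym * u * J⌋₊ mu l ω).eval (rt F Wm ω) *
      (2 ^ (γ l + qE k u φ J) * hgt F c (chE Gc k fb fn) ω l)

/-- The digits of the heights of the followers, to `nv u` digits behind the natural ones of `w`. -/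
noncomputable def fvP (F : Fam m J) (c : ℕ → Fin m) (k f : ℕ) (nv u : ℝ) (fb fn : ℕ → ℕ)
    (γ : ℕ → ℕ) (Gc : ℕ → PtT F → ℕ → MvPolynomial (Option (Fin m)) ℝ) (ω : F.Ω) (l : Fin f) : ℤ :=
  ⌊(2 : ℝ) ^ (γ (k + l) + ⌊nv * u * J⌋₊) * hgt F c (chE Gc k fb fn) ω (k + l)⌋

/-! ### The inputs on one event -/

/-- **(KE)** The gradients of the target over the followers are closed: over the charts of all windows
`fn t`. `e`: the error, in units. -/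
structure KE (F : Fam m J) (c : ℕ → Fin m) (k f Km n : ℕ) (al be w u φ e : ℝ) (ow : ℕ → ℝ)
    (fb fn : ℕ → ℕ) (A : F.Ω → Prop) (γ : ℕ → ℕ)
    (Gc : ℕ → PtT F → ℕ → MvPolynomial (Option (Fin m)) ℝ) (Wm : ℕ)
    (mu : LnT F → ℕ → Polynomial ℝ) : Prop where
  w1 : ⌊w * J⌋₊ ≤ Wm
  w2 : (Wm : ℝ) ≤ (w + φ / 2) * J
  deg : ∀ s l, (mu s l).natDegree ≤ Km
  bd : ∀ s l a, |(mu s l).coeff a| ≤ 2 ^ (e * u * J)
  near : ∀ t ≤ n, ∀ ω, A ω → ∀ l, k ≤ l → l < k + f →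
    |gnh F c (k + f) γ (chE Gc k fb fn) (Gc (fn t)) ω l -
      (mu (slam F Wm ω) l).eval (rt F Wm ω)| ≤
        2 ^ (-(((be - al) * (ow (fn t) - w) - e * u) * J))

/-- **(FdE)** The followers are far-dead: their codes of orders `1, …, D + 1`, to `nd u` digits, are few
bits given the far path (`T u` digits) and the record of the window `w₁`. -/
def FdE (F : Fam m J) (c : ℕ → Fin m) (k f D : ℕ) (sn : ℕ → ℝ → ℝ) (nd b w u T δ w₁ : ℝ)
    (fb fn : ℕ → ℕ) (A : F.Ω → Prop) (γ : ℕ → ℕ)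
    (H : ℕ → LnT F → ℕ → MvPolynomial (Option (Fin m)) ℝ) : Prop :=
  CH (Pool.Agent.H49.Ent.cond F.p A True)
    (fun ω (l : Fin f) => cod F ⌊w * J⌋₊ (fun s => lbE H k fb fn b w s (k + l)) (c (k + l))
      (γ (k + l) + ⌊nd * u * J⌋₊) 1 (D + 1) ω)
    (fun ω => (npP F c k sn b w (T * u) fb fn H ω, (cR F A w₁ ω, F.W ω))) ≤ δ * u * J

/-- **(SaE)** The side path is few bits given the near path and the record of the window `a`. -/
def SaE (F : Fam m J) (c : ℕ → Fin m) (k f K Km : ℕ) (sn : ℕ → ℝ → ℝ) (ns ym b w u φ δ a : ℝ)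
    (fb fn : ℕ → ℕ) (A : F.Ω → Prop) (γ : ℕ → ℕ)
    (H : ℕ → LnT F → ℕ → MvPolynomial (Option (Fin m)) ℝ) (Wm : ℕ)
    (mu : LnT F → ℕ → Polynomial ℝ) : Prop :=
  CH (Pool.Agent.H49.Ent.cond F.p A True) (sdP F c k f K Km ns ym b w u fb fn γ H Wm mu)
    (fun ω => (npP F c k sn b w (u + 100 * yE k φ) fb fn H ω, (cR F A a ω, F.W ω))) ≤ δ * u * J

/-- **(DjE)** The codes of order at least one of the target, to `ξ u` digits, are few bits given the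
far path (`T u` digits), the side path and the record of the window `w₁`. -/
def DjE (F : Fam m J) (c : ℕ → Fin m) (k f K Km : ℕ) (sn : ℕ → ℝ → ℝ)
    (ξ ns ym b w u T φ δ w₁ : ℝ) (fb fn : ℕ → ℕ) (A : F.Ω → Prop) (γ : ℕ → ℕ)
    (H : ℕ → LnT F → ℕ → MvPolynomial (Option (Fin m)) ℝ) (Wm : ℕ)
    (mu : LnT F → ℕ → Polynomial ℝ) : Prop :=
  ∀ W : ℕ, Wm ≤ W → (W : ℝ) ≤ (w + 2 * φ) * J →
    CH (Pool.Agent.H49.Ent.cond F.p A True)
      (fun ω (i : Fin (Km + K)) => ⌊(2 : ℝ) ^ ⌊ξ * u * J⌋₊ *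
        (tpP F c k f K Km ns ym b w u φ fb fn γ H Wm mu W ω).coeff i.succ⌋)
      (fun ω => (npP F c k sn b w (T * u) fb fn H ω,
        (sdP F c k f K Km ns ym b w u fb fn γ H Wm mu ω, (cR F A w₁ ω, F.W ω)))) ≤ δ * u * J

/-- **(NtE)** The derivative of the path of the target at the time of the sample is few bits given the
near path, the side path and the record of the window `a`. -/
def NtE (F : Fam m J) (c : ℕ → Fin m) (k f K Km : ℕ) (sn : ℕ → ℝ → ℝ)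
    (ns ym b w u φ δ a : ℝ) (fb fn : ℕ → ℕ) (A : F.Ω → Prop) (γ : ℕ → ℕ)
    (H : ℕ → LnT F → ℕ → MvPolynomial (Option (Fin m)) ℝ) (Wm : ℕ)
    (mu : LnT F → ℕ → Polynomial ℝ) : Prop :=
  ∀ W : ℕ, Wm ≤ W → (W : ℝ) ≤ (w + 2 * φ) * J →
    CH (Pool.Agent.H49.Ent.cond F.p A True)
      (fun ω => ⌊(tpP F c k f K Km ns ym b w u φ fb fn γ H Wm mu W ω).derivative.eval
        (rt F W ω)⌋)
      (fun ω => (npP F c k sn b w (u + 100 * yE k φ) fb fn H ω,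
        (sdP F c k f K Km ns ym b w u fb fn γ H Wm mu ω, (cR F A a ω, F.W ω)))) ≤ δ * u * J

/-- **(NlE)** No look-ahead over the deep path, for the record of the window `j`, over the one of
`w₁`. -/
def NlE (F : Fam m J) (c : ℕ → Fin m) (k f K Km : ℕ) (sn : ℕ → ℝ → ℝ)
    (ξ ns ym b w u T φ δ w₁ j : ℝ) (fb fn : ℕ → ℕ) (A : F.Ω → Prop) (γ : ℕ → ℕ)
    (Gc : ℕ → PtT F → ℕ → MvPolynomial (Option (Fin m)) ℝ)
    (H : ℕ → LnT F → ℕ → MvPolynomial (Option (Fin m)) ℝ) (Wm : ℕ)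
    (mu : LnT F → ℕ → Polynomial ℝ) : Prop :=
  ∀ ne Pe' : ℕ → ℝ, (∀ l < k, sn l w + 3 * T * u ≤ ne l ∧
      ne l ≤ sn l w + 3 * T * u + 100 * yE k φ ∧ sn l w - w + 3 * T * u ≤ Pe' l ∧
      Pe' l ≤ sn l w - w + (3 * T + k + 2) * u) →
    MI (Pool.Agent.H49.Ent.cond F.p A True) (cR F A j)
      (fun ω => ⌊(2 : ℝ) ^ ⌊ξ * u * J⌋₊ *
        TVP F c k f K Km ns ym b w u φ fb fn γ Gc H Wm mu ω⌋)
      (fun ω => (⌊TVP F c k f K Km ns ym b w u φ fb fn γ Gc H Wm mu ω⌋,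
        (sdP F c k f K Km ns ym b w u fb fn γ H Wm mu ω,
          ((jh F c k ⌊w * J⌋₊ (lbE H k fb fn b w) ne ω,
            jv F c k ⌊w * J⌋₊ (lbE H k fb fn b w) Pe' ω), (cR F A w₁ ω, F.W ω))))) ≤ δ * u * J

/-- **(RowH)** The row of `N - ∑ Mc v`, given `nv u` digits of the followers, the rounded gradients and
the record of the window `w₁`, on parts of the event. -/
def RowH (F : Fam m J) (c : ℕ → Fin m) (k f Km : ℕ) (h ξ nv ym b w u φ π₀ δ w₁ : ℝ)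
    (fb fn : ℕ → ℕ) (A : F.Ω → Prop) (γ : ℕ → ℕ)
    (Gc : ℕ → PtT F → ℕ → MvPolynomial (Option (Fin m)) ℝ)
    (H : ℕ → LnT F → ℕ → MvPolynomial (Option (Fin m)) ℝ) (Wm : ℕ)
    (mu : LnT F → ℕ → Polynomial ℝ) : Prop :=
  ∀ B : F.Ω → Prop, Sub B A → π₀ * Pe F.p A ≤ Pe F.p B →
    CH (Pool.Agent.H49.Ent.cond F.p B True)
      (fun ω => ⌊(2 : ℝ) ^ ⌊ξ * u * J⌋₊ * NvP F c k f Km ym u φ fb fn γ Gc Wm mu ω⌋)
      (fun ω => (⌊NvP F c k f Km ym u φ fb fn γ Gc Wm mu ω⌋, (fvP F c k f nv u fb fn γ Gc ω,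
        (Vv F c k ⌊w * J⌋₊ (lbE H k fb fn b w)
          (fun l => ((γ l + qE k u φ J + ⌊ξ * u * J⌋₊ : ℕ) : ℝ)) ω,
        (mcP F k f Km ym u Wm mu ω, (cR F A w₁ ω, F.W ω)))))) ≤
      ((1 - h) * ξ * u * Real.log 2 + δ * u) * J

/-- **(RowE)** The row of the target over the side path, on parts of the event. -/
def RowE (F : Fam m J) (c : ℕ → Fin m) (k f K Km : ℕ) (h ξ ns ym b w u φ π₀ δ w₁ : ℝ)
    (fb fn : ℕ → ℕ) (A : F.Ω → Prop) (γ : ℕ → ℕ)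
    (Gc : ℕ → PtT F → ℕ → MvPolynomial (Option (Fin m)) ℝ)
    (H : ℕ → LnT F → ℕ → MvPolynomial (Option (Fin m)) ℝ) (Wm : ℕ)
    (mu : LnT F → ℕ → Polynomial ℝ) : Prop :=
  ∀ B : F.Ω → Prop, Sub B A → π₀ * Pe F.p A ≤ Pe F.p B →
    CH (Pool.Agent.H49.Ent.cond F.p B True)
      (fun ω => ⌊(2 : ℝ) ^ ⌊ξ * u * J⌋₊ *
        TVP F c k f K Km ns ym b w u φ fb fn γ Gc H Wm mu ω⌋)
      (fun ω => (⌊TVP F c k f K Km ns ym b w u φ fb fn γ Gc H Wm mu ω⌋,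
        (Vv F c k ⌊w * J⌋₊ (lbE H k fb fn b w)
          (fun l => ((γ l + qE k u φ J + ⌊ξ * u * J⌋₊ : ℕ) : ℝ)) ω,
        (sdP F c k f K Km ns ym b w u fb fn γ H Wm mu ω, (cR F A w₁ ω, F.W ω))))) ≤
      ((1 - h) * ξ * u * Real.log 2 + δ * u) * J

/-! ### The class theorem -/

/-- **(E1)** The class theorem: the inputs on one event give the closed gradients of the last place.
`jm`: the windows of the records of `NlE` are before `w + jm u`. -/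
def E1Stmt : Prop := ∀ (D K Km k f : ℕ) (al be h ξ ns ym jm : ℝ), 1 ≤ D → D + 1 ≤ K → 1 ≤ k →
  1 ≤ f → 1 < al → al < be → 0 < h → h ≤ 1 → 0 < ξ → ξ ≤ 1 → 0 ≤ ns → 0 ≤ ym →
  1 + ξ < ns + ym → ξ ≤ ym → ym < be - al → ξ * al < be - al → 0 < jm → jm ≤ 1 →
  ξ < jm * al → ξ < jm * (be - al) →
  ∃ s₁ π₀ δ₀ T₀ : ℝ, 0 < s₁ ∧ 0 < π₀ ∧ 0 < δ₀ ∧ ∀ T : ℝ, T₀ ≤ T → ∃ Λ : ℝ, 1 ≤ Λ ∧
  ∀ ι : ℝ, 0 < ι → ∃ φ₀ : ℝ, 0 < φ₀ ∧
  ∀ {m : ℕ} {S : PCl m} {c : ℕ → Fin m} {sn sp : ℕ → ℝ → ℝ} {G : Set ℝ} {b o w u φ e : ℝ}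
    {lam : ℝ → ℝ}, FBox S c k f sn sp G al be h b o w u Λ φ e lam → φ ≤ φ₀ * u → 0 ≤ e →
    e ≤ φ₀ →
    ∀ {Dr N M : ℕ} {C₀ a Eb ηm : ℝ} {ow η σ : ℕ → ℝ} {lv bb : ℕ → ℕ → ℝ} {fb fn : ℕ → ℕ}
      {nb n ks : ℕ} {w₁ : ℚ}, w + φ / 2 ≤ w₁ → (w₁ : ℝ) ≤ w + φ → WnT k f sn G al b w u Λ φ N C₀ Eb ηm ow lv fb fn nb n ks →
    Bas S (fun J F A => ∀ {κ : ℝ} {z : ℕ → ℕ → ℕ} {g₀ : ℕ → ℕ → ℕ}
      {Gc : ℕ → PtT F → ℕ → MvPolynomial (Option (Fin m)) ℝ}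
      {H : ℕ → LnT F → ℕ → MvPolynomial (Option (Fin m)) ℝ} {Wm : ℕ}
      {mu : LnT F → ℕ → Polynomial ℝ},
      WinB F c (k + f) D Dr N M C₀ a Eb ηm ow η σ lv bb κ z A g₀ Gc H →
      RadT nb n M J u ow fb fn z →
      (∀ l < k, CfB F ⌊b * J⌋₊ 1 (c l) A (fun s => s) (fun s => H (fb 0) s l)) →
      (∀ l, k ≤ l → l ≤ k + f → CfB F ⌊w * J⌋₊ 1 (c l) A (fun s => s)
        (fun s => H (fn 0) s l)) →
      KE F c k f Km n al be w u φ φ₀ ow fb fn A (g₀ (fn 0)) Gc Wm mu →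
      SaE F c k f K Km sn ns ym b w u φ δ₀ (ow (fn n)) fb fn A (g₀ (fn 0)) H Wm mu →
      DjE F c k f K Km sn ξ ns ym b w u T φ δ₀ w₁ fb fn A (g₀ (fn 0)) H Wm mu →
      NtE F c k f K Km sn ns ym b w u φ δ₀ (ow (fn n)) fb fn A (g₀ (fn 0)) H Wm mu →
      (∀ t ≤ n, ow (fn t) ≤ w + jm * u →
        NlE F c k f K Km sn ξ ns ym b w u T φ δ₀ w₁ (ow (fn t)) fb fn A (g₀ (fn 0)) Gc H Wm mu) →
      RowE F c k f K Km h ξ ns ym b w u φ π₀ δ₀ w₁ fb fn A (g₀ (fn 0)) Gc H Wm mu →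
      V0OutP F c (k + f) (Km + K) w φ (ι * u) (s₁ * u) 2 A (g₀ (fn 0)) (chE Gc k fb fn)
        (Gc (fn n)))

end Pool.VW33
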