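import Pool.Agent.H33.VW.T

/-!
# Followers of one slope and a steeper target over slope-one places: inputs together

`KInP.and`, `exin_of`: inputs on one class. `InMon`: a property of the letters passes to subclasses, to
more room and to larger degrees of the balls.
-/

set_option autoImplicit false

namespace Pool.VW33

open Finset Real MvPolynomial
open Pool.Agent.H49.Ent Pool.Agent.H32.Dense
open Pool.STK hiding pr2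
open Pool.KA Pool.KSAT Pool.K2S Pool.PB Pool.S6C
open Pool.GEN Pool.CHT Pool.CHX Pool.ISO Pool.LA91
open Pool.RCD Pool.V0F Pool.V0S Pool.PKG
open Pool.T4C72 (WnT RadT)
open Pool.AJW (CfB)
open Pool.D2R (WinB)
open Pool.V0B19 (grS)

/-- Statements about all events of positive relative probability. -/
theorem bas_prt {m : ℕ} {S : PCl m} {Φ : Stat m} (h : Bas S Φ) {c : ℝ} (hc : 0 < c) :
    Bas S (fun J F A => ∀ B : F.Ω → Prop, Sub B A → c * Pe F.p A ≤ Pe F.p B → Φ J F B) := by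
  obtain ⟨τ, hτ, J₁, h⟩ := h
  obtain ⟨J₂, hJ₂⟩ := exists_nat_ge (-Real.log c / (τ / 2))
  refine ⟨τ / 2, half_pos hτ, max J₁ J₂, fun J hJ F A hA B hB hP =>
    h J ((le_max_left _ _).trans hJ) F B ?_⟩
  have h2 : Real.exp (-(τ / 2 * J)) * Pe F.p A ≤ Pe F.p B := by
    refine le_trans (mul_le_mul_of_nonneg_right ?_ (Pe_nonneg F.isLaw A)) hP
    have h3 : (J₂ : ℝ) ≤ J := by exact_mod_cast (le_max_right _ _).trans hJ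
    have h5 := hJ₂.trans h3
    rw [div_le_iff₀ (by linarith)] at h5
    calc Real.exp (-(τ / 2 * J)) ≤ Real.exp (Real.log c) := Real.exp_le_exp.2 (by linarith)
      _ = c := Real.exp_log hc
  have h1 := S.res (half_pos hτ).le hA hB h2
  rwa [add_halves] at h1

section

variable {m J k f : ℕ} {F : Fam m J} {x : Lt m} {y : Wt} {κ : ℝ} {z : ℕ → ℕ → ℕ} {A B : F.Ω → Prop}
  {g₀ : ℕ → ℕ → ℕ} {Gc : ℕ → PtT F → ℕ → MvPolynomial (Option (Fin m)) ℝ}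
  {H : ℕ → LnT F → ℕ → MvPolynomial (Option (Fin m)) ℝ} {Wm : ℕ} {mu : LnT F → ℕ → Polynomial ℝ}

/-- Ball windows on parts. -/
theorem Bw.sub (W : Bw F x y k f κ z A g₀ Gc H) {c κ' : ℝ} (hκ' : 0 ≤ κ')
    (hB : Sub B A) (hP : c * Pe F.p A ≤ Pe F.p B) (hκ : κ ≤ κ' * c) :
    Bw F x y k f κ' z B g₀ Gc H where
  win := W.win.res hB hP hκ' hκ
  rad := W.rad
  cfb := fun l hl ω hω a => W.cfb l hl ω (hB ω hω) a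
  cfn := fun l h1 h2 ω hω a => W.cfn l h1 h2 ω (hB ω hω) a

/-- The closed gradients on parts. -/
theorem KEp.sub {al be : ℝ} (W : KEp k f al be F x y A g₀ Gc H Wm mu) (hB : Sub B A) :
    KEp k f al be F x y B g₀ Gc H Wm mu :=
  ⟨W.w1, W.w2, W.deg, W.bd, fun t ht ω hω => W.near t ht ω (hB ω hω)⟩

/-- A property of the large parts on a part. -/
theorem OnP.sub {Φ : Evp m} {p₁ p₂ c : ℝ} (h : OnP Φ p₂ F x y A g₀ Gc H Wm mu) (hB : Sub B A)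
    (hP : c * Pe F.p A ≤ Pe F.p B) (hp : 0 ≤ p₁) (h12 : p₂ ≤ p₁ * c) :
    OnP Φ p₁ F x y B g₀ Gc H Wm mu := fun B' hB' hP' => h B' (fun ω hω => hB ω (hB' ω hω)) (by
  have h1 := mul_le_mul_of_nonneg_left hP hp
  have h2 := mul_le_mul_of_nonneg_right h12 (Pe_nonneg F.isLaw A)
  linarith)

end

/-- **Two inputs** on one class. -/
theorem KInP.and {m k f : ℕ} {al be : ℝ} {Hp Hp' Φ Ψ : Evp m} {x : Lt m}
    (h1 : KInP k f al be Hp Φ x) (h2 : KInP k f al be Hp' Ψ x) :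
    KInP k f al be (Hp.and Hp') (Φ.and Ψ) x := by
  intro y hy
  obtain ⟨c₁, κ₁, hc₁, hκ₁, h1⟩ := h1 y hy
  obtain ⟨c₂, κ₂, hc₂, hκ₂, h2⟩ := h2 y hy
  refine ⟨c₂ * c₁, min κ₁ (κ₂ * c₁), by positivity, lt_min hκ₁ (by positivity),
    fun p₁ hp₁ => ?_⟩
  obtain ⟨p₃, hp₃, h1⟩ := h1 (p₁ * c₂) (by positivity)
  obtain ⟨p₄, hp₄, h2⟩ := h2 p₁ hp₁
  refine ⟨min p₃ (p₄ * c₁), lt_min hp₃ (by positivity), ?_⟩
  refine (h1.and (bas_prt h2 hc₁)).mono 0 ?_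
  rintro J - F A ⟨g1, g2⟩ κ z g₀ Gc H Wm mu hκ hW hH hK
  have hA0 := Pe_nonneg F.isLaw A
  obtain ⟨B₁, hB₁, hP₁, g1⟩ := g1 (hκ.trans (min_le_left _ _)) hW (fun B' hB' hP' => (hH B' hB'
    ((mul_le_mul_of_nonneg_right (min_le_left _ _) hA0).trans hP')).1) hK
  obtain ⟨B₂, hB₂, hP₂, g2⟩ := g2 B₁ hB₁ hP₁ le_rfl
    (hW.sub hκ₂.le hB₁ hP₁ (hκ.trans (min_le_right _ _)))
    (fun B' hB' hP' => (OnP.sub hH hB₁ hP₁ hp₄.le (min_le_right _ _) B' hB' hP').2) (hK.sub hB₁)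
  refine ⟨B₂, fun ω hω => hB₁ ω (hB₂ ω hω), ?_, fun B' hB' hP' => ⟨g1 B'
    (fun ω hω => hB₂ ω (hB' ω hω)) ?_, g2 B' hB' hP'⟩⟩
  · have := mul_le_mul_of_nonneg_left hP₁ hc₂.le
    linarith
  · have := mul_le_mul_of_nonneg_left hP₂ hp₁.le
    linarith

/-- **The hypothesis, the gradients and the inputs** on one class. -/
theorem exin_of {m k f : ℕ} {al be : ℝ} {Hk Hp Φ Ψ : Evp m} {x : Lt m}
    (h0 : PIn k f al (Hk.and Hp) x) (h1 : ExK k f al be Hk x) (h2 : KInP k f al be Hp Φ x)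
    (hΨ : ∀ {J : ℕ} (F : Fam m J) (y : Wt) (A : F.Ω → Prop) (g₀ : ℕ → ℕ → ℕ)
      (Gc : ℕ → PtT F → ℕ → MvPolynomial (Option (Fin m)) ℝ)
      (H : ℕ → LnT F → ℕ → MvPolynomial (Option (Fin m)) ℝ) (Wm : ℕ)
      (mu : LnT F → ℕ → Polynomial ℝ), KEp k f al be F x y A g₀ Gc H Wm mu →
      Φ F x y A g₀ Gc H Wm mu → Ψ F x y A g₀ Gc H Wm mu) :
    ExIn k f al Ψ x := by
  intro y hy
  obtain ⟨c₀, κ₀, hc₀, hκ₀, h0⟩ := h0 y hy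
  obtain ⟨c₁, κ₁, p₁, hc₁, hκ₁, hp₁, h1⟩ := h1 y hy
  obtain ⟨c₂, κ₂, hc₂, hκ₂, h2⟩ := h2 y hy
  obtain ⟨p₂, hp₂, h2⟩ := h2 1 one_pos
  refine ⟨c₂ * c₁ * c₀, min κ₀ (min (κ₁ * c₀) (κ₂ * (c₁ * c₀))), by positivity,
    lt_min hκ₀ (lt_min (by positivity) (by positivity)), ?_⟩
  refine ((h0 (min p₁ (p₂ * c₁)) (lt_min hp₁ (by positivity))).and ((bas_prt h1 hc₀).and
    (bas_prt h2 (mul_pos hc₁ hc₀)))).mono 0 ?_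
  rintro J - F A ⟨g0, g1, g2⟩ κ z g₀ Gc H hκ hW
  obtain ⟨B₀, hB₀, hP₀, g0⟩ := g0 (hκ.trans (min_le_left _ _)) hW
  have hb0 := Pe_nonneg F.isLaw B₀
  obtain ⟨B₁, Wm, mu, hB₁, hP₁, hK⟩ := g1 B₀ hB₀ hP₀ le_rfl
    (hW.sub hκ₁.le hB₀ hP₀ (hκ.trans ((min_le_right _ _).trans (min_le_left _ _))))
    (fun Wm mu B' hB' hP' => (g0 Wm mu B' hB' ((mul_le_mul_of_nonneg_right (min_le_left _ _)
      hb0).trans hP')).1)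
  have hP₁' : c₁ * c₀ * Pe F.p A ≤ Pe F.p B₁ := by
    have := mul_le_mul_of_nonneg_left hP₀ hc₁.le
    linarith
  have hB₁' : Sub B₁ A := fun ω hω => hB₀ ω (hB₁ ω hω)
  obtain ⟨B₂, hB₂, hP₂, g2⟩ := g2 B₁ hB₁' hP₁' le_rfl
    (hW.sub hκ₂.le hB₁' hP₁' (hκ.trans ((min_le_right _ _).trans (min_le_right _ _))))
    (fun B' hB' hP' => (OnP.sub (g0 Wm mu) hB₁ hP₁ hp₂.le (min_le_right _ _) B' hB' hP').2) hK
  refine ⟨B₂, Wm, mu, fun ω hω => hB₁' ω (hB₂ ω hω), ?_, hΨ F y B₂ g₀ Gc H Wm mu (hK.sub hB₂)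
    (g2 B₂ (fun _ h => h) (by rw [one_mul]))⟩
  have := mul_le_mul_of_nonneg_left hP₁' hc₂.le
  linarith

/-- A weaker hypothesis of the large parts. -/
theorem PIn.imp {m k f : ℕ} {al : ℝ} {Φ Ψ : Evp m} {x : Lt m} (h : PIn k f al Φ x)
    (hΨ : ∀ {J : ℕ} (F : Fam m J) (y : Wt) (A : F.Ω → Prop) (g₀ : ℕ → ℕ → ℕ)
      (Gc : ℕ → PtT F → ℕ → MvPolynomial (Option (Fin m)) ℝ)
      (H : ℕ → LnT F → ℕ → MvPolynomial (Option (Fin m)) ℝ) (Wm : ℕ)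
      (mu : LnT F → ℕ → Polynomial ℝ), Φ F x y A g₀ Gc H Wm mu → Ψ F x y A g₀ Gc H Wm mu) :
    PIn k f al Ψ x := by
  intro y hy
  obtain ⟨c₀, κ₀, hc₀, hκ₀, h⟩ := h y hy
  refine ⟨c₀, κ₀, hc₀, hκ₀, fun p₁ hp₁ => (h p₁ hp₁).mono 0 ?_⟩
  rintro J - F A g κ z g₀ Gc H hκ hW
  obtain ⟨B, h1, h2, h3⟩ := g hκ hW
  exact ⟨B, h1, h2, fun Wm mu B' h4 h5 => hΨ F y B' g₀ Gc H Wm mu (h3 Wm mu B' h4 h5)⟩

/-! ### Monotony in the letters -/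

/-- A property of the letters passes to subclasses, to more room and to larger degrees of the balls. -/
structure InMon {m : ℕ} (In : Lt m → Prop) : Prop where
  sub : ∀ (x : Lt m) (S' : PCl m), (∀ (τ : ℝ) (J : ℕ) (F : Fam m J) (A : F.Ω → Prop),
    S'.St τ J F A → x.S.St τ J F A) → In x → In { x with S := S' }
  dr : ∀ (x : Lt m) (d : ℕ), x.Dr ≤ d → In x → In { x with Dr := d }
  la : ∀ (x : Lt m) (Λ' : ℝ), x.Λ ≤ Λ' → 0 ≤ x.u → In x → In { x with Λ := Λ' }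

theorem InMon.and {m : ℕ} {In In' : Lt m → Prop} (h : InMon In) (h' : InMon In') :
    InMon (fun x => In x ∧ In' x) where
  sub := fun x S' hs H => ⟨h.sub x S' hs H.1, h'.sub x S' hs H.2⟩
  dr := fun x d hd H => ⟨h.dr x d hd H.1, h'.dr x d hd H.2⟩
  la := fun x Λ' hl hu H => ⟨h.la x Λ' hl hu H.1, h'.la x Λ' hl hu H.2⟩

/-- The windows with less room. -/
theorem wnt_la {k f : ℕ} {sn : ℕ → ℝ → ℝ} {G : Set ℝ} {s b w u Λ Λ' φ : ℝ} {N : ℕ} {C₀ Eb ηm : ℝ}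
    {ow : ℕ → ℝ} {lv : ℕ → ℕ → ℝ} {fb fn : ℕ → ℕ} {nb n ks : ℕ}
    (W : WnT k f sn G s b w u Λ φ N C₀ Eb ηm ow lv fb fn nb n ks) (h : Λ' ≤ Λ) (hu : 0 ≤ u) :
    WnT k f sn G s b w u Λ' φ N C₀ Eb ηm ow lv fb fn nb n ks where
  n1 := W.n1
  kn := W.kn
  fbN := W.fbN
  fnN := W.fnN
  eq := W.eq
  ob := W.ob
  ow0 := W.ow0
  okn := W.okn
  oks := W.oks
  on := W.on
  bG := W.bG
  nG := W.nG
  bs := W.bs
  ns := W.ns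
  lv := W.lv
  C0 := W.C0
  Eb := fun l hl => by
    have h1 := W.Eb l hl
    have h2 := mul_le_mul_of_nonneg_right h hu
    linarith

/-- The windows with a larger error. -/
theorem wnt_mono {k f : ℕ} {sn : ℕ → ℝ → ℝ} {G : Set ℝ} {s b w u Λ φ φ' : ℝ} {N : ℕ}
    {C₀ Eb ηm : ℝ} {ow : ℕ → ℝ} {lv : ℕ → ℕ → ℝ} {fb fn : ℕ → ℕ} {nb n ks : ℕ}
    (W : WnT k f sn G s b w u Λ φ N C₀ Eb ηm ow lv fb fn nb n ks) (h : φ ≤ φ') :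
    WnT k f sn G s b w u Λ φ' N C₀ Eb ηm ow lv fb fn nb n ks where
  n1 := W.n1
  kn := W.kn
  fbN := W.fbN
  fnN := W.fnN
  eq := W.eq
  ob := W.ob
  ow0 := W.ow0
  okn := W.okn
  oks := W.oks.trans h
  on := W.on.trans h
  bG := W.bG
  nG := W.nG
  bs := fun t ht => ⟨(W.bs t ht).1, by linarith [(W.bs t ht).2]⟩
  ns := fun t ht => ⟨(W.ns t ht).1, by linarith [(W.ns t ht).2]⟩
  lv := W.lv
  C0 := W.C0.trans h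
  Eb := W.Eb

/-- The event property does not use the class, the room and the degree of the balls. -/
def EvMon {m : ℕ} (Φ : Evp m) : Prop :=
  ∀ {J : ℕ} (F : Fam m J) (x : Lt m) (S' : PCl m) (Λ' : ℝ) (d : ℕ) (y : Wt) (A : F.Ω → Prop)
    (g₀ : ℕ → ℕ → ℕ) (Gc : ℕ → PtT F → ℕ → MvPolynomial (Option (Fin m)) ℝ)
    (H : ℕ → LnT F → ℕ → MvPolynomial (Option (Fin m)) ℝ) (Wm : ℕ)
    (mu : LnT F → ℕ → Polynomial ℝ), Φ F x y A g₀ Gc H Wm mu ↔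
    Φ F { x with S := S', Λ := Λ', Dr := d } y A g₀ Gc H Wm mu

theorem evm_fd {m k f : ℕ} {nd δ' : ℝ} : EvMon (FdP k f nd δ' : Evp m) :=
  fun _ _ _ _ _ _ _ _ _ _ _ _ => Iff.rfl

theorem evm_ke {m k f : ℕ} {al be : ℝ} : EvMon (KEp k f al be : Evp m) :=
  fun _ _ _ _ _ _ _ _ _ _ _ _ => Iff.rfl

theorem evm_sa {m k f : ℕ} {ns ym : ℝ} : EvMon (SaP k f ns ym : Evp m) :=
  fun _ _ _ _ _ _ _ _ _ _ _ _ => Iff.rfl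

theorem evm_dj {m k f : ℕ} {ξ ns ym : ℝ} : EvMon (DjP k f ξ ns ym : Evp m) :=
  fun _ _ _ _ _ _ _ _ _ _ _ _ => Iff.rfl

theorem evm_nt {m k f : ℕ} {ns ym : ℝ} : EvMon (NtP k f ns ym : Evp m) :=
  fun _ _ _ _ _ _ _ _ _ _ _ _ => Iff.rfl

theorem evm_nl {m k f : ℕ} {ξ ns ym jm : ℝ} : EvMon (NlP k f ξ ns ym jm : Evp m) :=
  fun _ _ _ _ _ _ _ _ _ _ _ _ => Iff.rfl

theorem evm_row {m k f : ℕ} {h ξ ns ym : ℝ} : EvMon (RowP k f h ξ ns ym : Evp m) :=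
  fun _ _ _ _ _ _ _ _ _ _ _ _ => Iff.rfl

theorem evm_all {m k f : ℕ} {al be h ξ ns ym jm : ℝ} :
    EvMon (InP k f al be h ξ ns ym jm : Evp m) :=
  fun _ _ _ _ _ _ _ _ _ _ _ _ => Iff.rfl

theorem mon_exin {m k f : ℕ} {al : ℝ} {Φ : Evp m} (hΦ : EvMon Φ) :
    InMon (ExIn k f al Φ : Lt m → Prop) where
  sub := fun x S' hs h y hy => by
    obtain ⟨cT, κT, hc, hκ, h⟩ := h y hy
    refine ⟨cT, κT, hc, hκ, (h.sub hs).mono 0 ?_⟩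
    rintro J - F A g κ z g₀ Gc H hκ hW
    obtain ⟨B, Wm, mu, h1, h2, h3⟩ := g hκ ⟨hW.win, hW.rad, hW.cfb, hW.cfn⟩
    exact ⟨B, Wm, mu, h1, h2, (hΦ F x S' x.Λ x.Dr _ _ _ _ _ _ _).1 h3⟩
  dr := fun x d hd h y hy => by
    obtain ⟨cT, κT, hc, hκ, h⟩ := h y ⟨hd.trans hy.1, hy.2⟩
    refine ⟨cT, κT, hc, hκ, h.mono 0 ?_⟩
    rintro J - F A g κ z g₀ Gc H hκ hW
    obtain ⟨B, Wm, mu, h1, h2, h3⟩ := g hκ ⟨hW.win, hW.rad, hW.cfb, hW.cfn⟩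
    exact ⟨B, Wm, mu, h1, h2, (hΦ F x x.S x.Λ d _ _ _ _ _ _ _).1 h3⟩
  la := fun x Λ' hl hu h y hy => by
    obtain ⟨cT, κT, hc, hκ, h⟩ := h y ⟨hy.1, wnt_la hy.2 hl hu⟩
    refine ⟨cT, κT, hc, hκ, h.mono 0 ?_⟩
    rintro J - F A g κ z g₀ Gc H hκ hW
    obtain ⟨B, Wm, mu, h1, h2, h3⟩ := g hκ ⟨hW.win, hW.rad, hW.cfb, hW.cfn⟩
    exact ⟨B, Wm, mu, h1, h2, (hΦ F x x.S Λ' x.Dr _ _ _ _ _ _ _).1 h3⟩

theorem mon_pin {m k f : ℕ} {al : ℝ} {Φ : Evp m} (hΦ : EvMon Φ) :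
    InMon (PIn k f al Φ : Lt m → Prop) where
  sub := fun x S' hs h y hy => by
    obtain ⟨cT, κT, hc, hκ, h⟩ := h y hy
    refine ⟨cT, κT, hc, hκ, fun p₁ hp₁ => ((h p₁ hp₁).sub hs).mono 0 ?_⟩
    rintro J - F A g κ z g₀ Gc H hκ hW
    obtain ⟨B, h1, h2, h3⟩ := g hκ ⟨hW.win, hW.rad, hW.cfb, hW.cfn⟩
    exact ⟨B, h1, h2, fun Wm mu B' h4 h5 => (hΦ F x S' x.Λ x.Dr _ _ _ _ _ _ _).1
      (h3 Wm mu B' h4 h5)⟩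
  dr := fun x d hd h y hy => by
    obtain ⟨cT, κT, hc, hκ, h⟩ := h y ⟨hd.trans hy.1, hy.2⟩
    refine ⟨cT, κT, hc, hκ, fun p₁ hp₁ => (h p₁ hp₁).mono 0 ?_⟩
    rintro J - F A g κ z g₀ Gc H hκ hW
    obtain ⟨B, h1, h2, h3⟩ := g hκ ⟨hW.win, hW.rad, hW.cfb, hW.cfn⟩
    exact ⟨B, h1, h2, fun Wm mu B' h4 h5 => (hΦ F x x.S x.Λ d _ _ _ _ _ _ _).1
      (h3 Wm mu B' h4 h5)⟩
  la := fun x Λ' hl hu h y hy => by
    obtain ⟨cT, κT, hc, hκ, h⟩ := h y ⟨hy.1, wnt_la hy.2 hl hu⟩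
    refine ⟨cT, κT, hc, hκ, fun p₁ hp₁ => (h p₁ hp₁).mono 0 ?_⟩
    rintro J - F A g κ z g₀ Gc H hκ hW
    obtain ⟨B, h1, h2, h3⟩ := g hκ ⟨hW.win, hW.rad, hW.cfb, hW.cfn⟩
    exact ⟨B, h1, h2, fun Wm mu B' h4 h5 => (hΦ F x x.S Λ' x.Dr _ _ _ _ _ _ _).1
      (h3 Wm mu B' h4 h5)⟩

theorem mon_exk {m k f : ℕ} {al be : ℝ} {Hp : Evp m} (hH : EvMon Hp) :
    InMon (ExK k f al be Hp : Lt m → Prop) where
  sub := fun x S' hs h y hy => by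
    obtain ⟨cT, κT, p₂, hc, hκ, hp, h⟩ := h y hy
    refine ⟨cT, κT, p₂, hc, hκ, hp, (h.sub hs).mono 0 ?_⟩
    rintro J - F A g κ z g₀ Gc H hκ hW hh
    exact g hκ ⟨hW.win, hW.rad, hW.cfb, hW.cfn⟩ fun Wm mu B' h4 h5 =>
      (hH F x S' x.Λ x.Dr _ _ _ _ _ _ _).2 (hh Wm mu B' h4 h5)
  dr := fun x d hd h y hy => by
    obtain ⟨cT, κT, p₂, hc, hκ, hp, h⟩ := h y ⟨hd.trans hy.1, hy.2⟩
    refine ⟨cT, κT, p₂, hc, hκ, hp, h.mono 0 ?_⟩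
    rintro J - F A g κ z g₀ Gc H hκ hW hh
    exact g hκ ⟨hW.win, hW.rad, hW.cfb, hW.cfn⟩ fun Wm mu B' h4 h5 =>
      (hH F x x.S x.Λ d _ _ _ _ _ _ _).2 (hh Wm mu B' h4 h5)
  la := fun x Λ' hl hu h y hy => by
    obtain ⟨cT, κT, p₂, hc, hκ, hp, h⟩ := h y ⟨hy.1, wnt_la hy.2 hl hu⟩
    refine ⟨cT, κT, p₂, hc, hκ, hp, h.mono 0 ?_⟩
    rintro J - F A g κ z g₀ Gc H hκ hW hh
    exact g hκ ⟨hW.win, hW.rad, hW.cfb, hW.cfn⟩ fun Wm mu B' h4 h5 =>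
      (hH F x x.S Λ' x.Dr _ _ _ _ _ _ _).2 (hh Wm mu B' h4 h5)

theorem mon_kinp {m k f : ℕ} {al be : ℝ} {Hp Φ : Evp m} (hH : EvMon Hp) (hΦ : EvMon Φ) :
    InMon (KInP k f al be Hp Φ : Lt m → Prop) where
  sub := fun x S' hs h y hy => by
    obtain ⟨cT, κT, hc, hκ, h⟩ := h y hy
    refine ⟨cT, κT, hc, hκ, fun p₁ hp₁ => ?_⟩
    obtain ⟨p₂, hp₂, h⟩ := h p₁ hp₁
    refine ⟨p₂, hp₂, (h.sub hs).mono 0 ?_⟩
    rintro J - F A g κ z g₀ Gc H Wm mu hκ hW hh hK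
    obtain ⟨B, h1, h2, h3⟩ := g hκ ⟨hW.win, hW.rad, hW.cfb, hW.cfn⟩ (fun B' h4 h5 =>
      (hH F x S' x.Λ x.Dr _ _ _ _ _ _ _).2 (hh B' h4 h5)) hK
    exact ⟨B, h1, h2, fun B' h4 h5 => (hΦ F x S' x.Λ x.Dr _ _ _ _ _ _ _).1 (h3 B' h4 h5)⟩
  dr := fun x d hd h y hy => by
    obtain ⟨cT, κT, hc, hκ, h⟩ := h y ⟨hd.trans hy.1, hy.2⟩
    refine ⟨cT, κT, hc, hκ, fun p₁ hp₁ => ?_⟩
    obtain ⟨p₂, hp₂, h⟩ := h p₁ hp₁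
    refine ⟨p₂, hp₂, h.mono 0 ?_⟩
    rintro J - F A g κ z g₀ Gc H Wm mu hκ hW hh hK
    obtain ⟨B, h1, h2, h3⟩ := g hκ ⟨hW.win, hW.rad, hW.cfb, hW.cfn⟩ (fun B' h4 h5 =>
      (hH F x x.S x.Λ d _ _ _ _ _ _ _).2 (hh B' h4 h5)) hK
    exact ⟨B, h1, h2, fun B' h4 h5 => (hΦ F x x.S x.Λ d _ _ _ _ _ _ _).1 (h3 B' h4 h5)⟩
  la := fun x Λ' hl hu h y hy => by
    obtain ⟨cT, κT, hc, hκ, h⟩ := h y ⟨hy.1, wnt_la hy.2 hl hu⟩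
    refine ⟨cT, κT, hc, hκ, fun p₁ hp₁ => ?_⟩
    obtain ⟨p₂, hp₂, h⟩ := h p₁ hp₁
    refine ⟨p₂, hp₂, h.mono 0 ?_⟩
    rintro J - F A g κ z g₀ Gc H Wm mu hκ hW hh hK
    obtain ⟨B, h1, h2, h3⟩ := g hκ ⟨hW.win, hW.rad, hW.cfb, hW.cfn⟩ (fun B' h4 h5 =>
      (hH F x x.S Λ' x.Dr _ _ _ _ _ _ _).2 (hh B' h4 h5)) hK
    exact ⟨B, h1, h2, fun B' h4 h5 => (hΦ F x x.S Λ' x.Dr _ _ _ _ _ _ _).1 (h3 B' h4 h5)⟩

end Pool.VW33
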