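import Pool.Agent.H76.ST.Bxr

/-!
# The box of a pair over slope-one places, the last place not less steep

`EBox`: a class near a window, with slope-one places `c 0, …, c (k - 1)`, a place `c k` of slope `al`
and the last place `c (k + 1)` of slope `be`, `al ≤ be`. `rec_ebox`: the box of a record.
-/

set_option autoImplicit false

namespace Pool.VW33

open Finset Real MvPolynomial
open Pool.Agent.H49.Ent Pool.Agent.H32.Dense
open Pool.STK hiding pr2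
open Pool.KA Pool.KSAT Pool.K2S Pool.PB Pool.S6C
open Pool.GEN Pool.LA91 Pool.RCD Pool.OWN68 Pool.V0F Pool.V0T Pool.V0B19 Pool.V0R
open Pool.PKG
open Pool.ST76 (rec_lamg)

/-- **The box of a pair over slope-one places**, the last place not less steep: the class `S` near the
window `w`, in the unit `u`. `φ`: the error of the ladder, the levels and the rows; `e`: the error of
the free velocities and of the no look-ahead (in units `u`); `Λ`: the room. -/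
structure EBox {m : ℕ} (S : PCl m) (c : ℕ → Fin m) (k : ℕ) (sn sp : ℕ → ℝ → ℝ) (G : Set ℝ)
    (al be h b o w u Λ φ e : ℝ) (lam : ℝ → ℝ) : Prop where
  lad : LadR S c k 1 sn G b o φ
  img : (range (k + 1)).image c = univ.erase (c (k + 1))
  al1 : 1 ≤ al
  alb : al ≤ be
  u0 : 0 < u
  wG : w ∈ G
  bw : b + Λ * u ≤ w
  wo : w + Λ * u ≤ o
  o1 : o + Λ * u ≤ 1
  b0 : Λ * u ≤ b
  room : ∀ l ≤ k + 1, Λ * u ≤ sn l b ∧ sn l o + Λ * u ≤ 1
  lin0 : ∀ v ∈ G, b ≤ v → v ≤ o → |sn k v - sn k w - al * (v - w)| ≤ φ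
  lin1 : ∀ v ∈ G, b ≤ v → v ≤ o → |sn (k + 1) v - sn (k + 1) w - be * (v - w)| ≤ φ
  lamt : ∀ v : ℝ, b ≤ v → v ≤ o → |lam v - sn (k + 1) w - be * (v - w)| ≤ φ
  row : ∀ P₁ P₂ : ℝ, |P₁ - sn (k + 1) w| ≤ Λ * u → |P₂ - sn (k + 1) w| ≤ Λ * u → P₁ ≤ P₂ →
    RawN S (univ.erase (c (k + 1))) (c (k + 1)) P₁ (P₂ - P₁) h φ
  att : ∃ rk E : ℝ, rk < 1 ∧ 0 ≤ E ∧
    AttG S ((range (k + 1)).image c) (c (k + 1)) w (sn (k + 1) w) rk E ∧
    sn (k + 1) w + E + Λ * u ≤ 1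
  spb : ∀ i < k, sp i b ≤ sn i b - φ
  free : ∀ (P : Fin k → ℚ) (w₁ : ℚ) (x' : ℝ), w ≤ w₁ → x' ∈ G → w₁ ≤ x' → x' ≤ w + Λ * u →
    (∀ i : Fin k, sn i w - w + u ≤ P i ∧ (P i : ℝ) ≤ sn i w - w + Λ * u) →
    (∀ l i : Fin k, l < i → (P i : ℝ) - (sn i w - w) + u / 2 ≤ P l - (sn l w - w)) →
    FrI S c k sp b (fun i => (P i : ℝ)) w₁ x' (e * u)
  nla : ∀ w₁ v y : ℚ, w ≤ w₁ → w₁ ≤ v → v ≤ y → (y : ℝ) ≤ w + Λ * u →
    NlI S (c (k + 1)) w₁ v (lam v) (lam y) (e * u)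
  rn : ∀ w₁ : ℚ, ∃ η : ℝ, RNum S (fun J F => ptr F J) (vg (w₁ : ℝ)) η

section

variable {k : ℕ} {S : PCl (k + 2)} {al : ℝ} {g₀ : ℝ → ℝ}
  {P : List (Fin (k + 2)) × Fin (k + 2) → ℝ → ℝ → ℝ}
  {θ : ℝ} {P₂ : ℕ → List (Fin (k + 2)) × Fin (k + 2) → ℝ → ℝ → ℝ} {θ₂ Eb e₂ : ℕ → ℝ}
  {c : ℕ → Fin (k + 2)} {Pt : ℝ → ℝ → ℝ} {rt : ℝ → ℝ} {h K₀ g : ℝ} {L T : ℕ → ℝ → ℝ → ℝ}
  {Sl : ℕ → ℝ} {κ : ℕ → Kg} {G : Set ℝ} {S₀ N : ℕ} {A V : ℕ → ℝ} {S₂ N' : ℕ} {V' : ℕ → ℝ}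
  {K ε q t : ℝ}
  (R : RecG S al g₀ P θ P₂ θ₂ Eb e₂ c Pt rt h K₀ g L T Sl κ G S₀ N A V S₂ N' V' K ε q t)
include R

/-- **The box of a record** around the window `w`, in the unit `u`. `Cf`: the constant of the free
velocities; `pn`: the parameter of the no look-ahead. -/
theorem rec_ebox {M₀ cb co Cf pn kf kn : ℕ} {κ' : ℚ} {w u Λ φ e x₀ x₁ : ℝ} (hM : 1 ≤ M₀)
    (hu : 0 < u) (hΛ : 1 ≤ Λ) (hG : ∀ j < (cb + co) * M₀ + 1, grV M₀ cb w u j ∈ G)
    (hK : (1 + Sl (k + 1)) * |w - t| + (cb + co + Λ + 1) * u ≤ K * q) (hε : 0 < ε)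
    (hSl : ∀ l < k, Sl l = 1) (hκ1 : ∀ l < k, κ l = .one) (hs1 : 1 ≤ Sl k)
    (hs : Sl k ≤ Sl (k + 1)) (he0 : 0 < e)
    (hφ : 4 * (ε * q) ≤ φ) (hφM : 3 * ((1 + Sl k + Sl (k + 1)) * (u / M₀)) ≤ φ)
    (hφu : 400 * φ ≤ u)
    -- the constants
    (hCf : 2 * Λ + 7 * k + 15 ≤ Cf) (hcb : cb = Cf + 7 * k + 13) (hco : Λ + 1 ≤ co)
    (hκ'0 : (0 : ℝ) < κ') (hκ'e : (κ' : ℝ) ≤ e) (hpn : Λ + 2 ≤ e * (pn + 1))
    -- the labels
    (hatt : ∀ j < (cb + co) * M₀ + 1, ∃ rk E : ℝ, 0 ≤ rk ∧ rk < 1 ∧ 0 ≤ E ∧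
      E + L (k + 1) (grV M₀ cb w u j) (grV M₀ cb w u j) + Λ * u ≤ 1 ∧
      LbU S ((range (k + 1)).image c) (c (k + 1)) (grV M₀ cb w u j)
        (L (k + 1) (grV M₀ cb w u j) (grV M₀ cb w u j)) rk E)
    -- the properties of the points
    (hFa : FaQ (k, Cf, (1 / 8 : ℚ), κ') kf S P θ c Pt rt L T κ G x₀)
    (hx01 : w - (Cf + (7 * k + 12) / 2 - Λ) * u ≤ x₀)
    (hx02 : x₀ ≤ w - ((Cf : ℝ) / 2 + 7 * k + 13) * u) (hkf : u < (1 / 2) ^ kf)
    (hNl : NlaQ pn kn S P θ c Pt rt L T κ G x₁) (hx11 : w - u ≤ x₁) (hx12 : x₁ ≤ w)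
    (hkn : (Λ + 2) * u ≤ (1 / 2) ^ kn) :
    ∃ sp : ℕ → ℝ → ℝ, EBox S c k (fun l v => L l v v) sp (grS M₀ cb co w u) (Sl k)
      (Sl (k + 1)) h (w - cb * u) (w + co * u) w u Λ φ e (lh (L (k + 1)) G) := by
  have hq := R.q0
  have hM0 : (0 : ℝ) < M₀ := by exact_mod_cast hM
  have hcbR : (cb : ℝ) = Cf + 7 * k + 13 := by rw [hcb]; push_cast; ring
  have hk0 : (0 : ℝ) ≤ k := Nat.cast_nonneg _
  have hCf0 : (0 : ℝ) ≤ Cf := Nat.cast_nonneg _
  have hcb0 : (0 : ℝ) ≤ cb := Nat.cast_nonneg _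
  have hco0 : (0 : ℝ) ≤ co := Nat.cast_nonneg _
  have hco1 : 1 ≤ co := by
    have h1 : (1 : ℝ) ≤ co := by linarith
    exact_mod_cast h1
  have ht0 := R.t0
  have ht1 := R.t1
  have hcbu : 0 ≤ cb * u := by positivity
  have hcou : 0 ≤ co * u := by positivity
  have hku : 0 ≤ k * u := by positivity
  have hΛu : 0 < Λ * u := by positivity
  have hΛu1 : u ≤ Λ * u := le_mul_of_one_le_left hu.le hΛ
  have hΛcb : Λ * u ≤ cb * u := mul_le_mul_of_nonneg_right (by linarith) hu.le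
  have hΛco : Λ * u + u ≤ co * u := by
    have h1 := mul_le_mul_of_nonneg_right hco hu.le
    linarith
  have hKe : (1 + Sl (k + 1)) * |w - t| + (cb + co + Λ + 1) * u =
      |w - t| + Sl (k + 1) * |w - t| + cb * u + co * u + Λ * u + u := by ring
  rw [hKe] at hK
  have hwt := abs_le.1 (le_refl |w - t|)
  have hwt0 := abs_nonneg (w - t)
  have hswt : 0 ≤ Sl (k + 1) * |w - t| := mul_nonneg (by linarith) hwt0
  have hnear : ∀ x, w - cb * u - Λ * u ≤ x → x ≤ w + co * u + Λ * u → |x - t| ≤ K * q :=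
    fun x h1 h2 => by
      rw [abs_le]
      constructor <;> linarith [hwt.1, hwt.2]
  have hεq : 0 < ε * q := by positivity
  have hφp : 0 < φ := by linarith
  have hK2 : |w - t| + (cb + co + 1) * u ≤ K * q := by
    have e1 : (cb + co + 1) * u = cb * u + co * u + u := by ring
    rw [e1]
    linarith
  have hGn : ∀ v ∈ grS M₀ cb co w u, |v - t| ≤ K * q := by
    rintro v ⟨j, hj, rfl⟩
    exact hnear _ (by linarith [grV_lo (M₀ := M₀) (cb := cb) (w := w) hu.le j])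
      (by linarith [grV_hi (cb := cb) (w := w) hM hu.le hj])
  have hwn : |w - t| ≤ K * q := hnear w (by linarith) (by linarith)
  have W := R.tg (k + 1) (by omega) (by omega)
  have hEb := W.Eb0
  have hroom : ∀ y : ℝ, |y - t| ≤ K * q → ∀ l ≤ k + 1, L l y y + Eb (k + 1) + 3 * K * q < 1 :=
    fun y h1 l hl => W.room l hl y h1
  have hKq0 : 0 ≤ K * q := (abs_nonneg _).trans hwn
  have hKq3 : 3 * K * q = 3 * (K * q) := by ring
  rw [hKq3] at hroom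
  have hlow' : ∀ y : ℝ, |y - t| ≤ K * q → ∀ l ≤ k + 1, y ≤ L l y y := fun y h1 l hl => by
    have h2 := abs_le.1 h1
    exact rec_low (r := k + 1) R hl (by linarith) (by linarith)
  have hmid : grV M₀ cb w u (cb * M₀) = w := grV_mid hM w u
  have hwj : cb * M₀ < (cb + co) * M₀ + 1 :=
    ix_lt hco1 (show cb * M₀ ≤ cb * M₀ + M₀ by omega)
  have hwG : w ∈ grS M₀ cb co w u := by
    have := grS_mem (M₀ := M₀) (cb := cb) (co := co) (w := w) (u := u) hwj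
    rwa [hmid] at this
  have hx0n : |x₀ - t| ≤ K * q := by
    refine hnear x₀ ?_ ?_
    · have e1 : (Cf + (7 * k + 12) / 2 - Λ) * u = Cf * u + 7 / 2 * (k * u) + 6 * u - Λ * u := by
        ring
      have e2 : cb * u = Cf * u + 7 * (k * u) + 13 * u := by rw [hcbR]; ring
      rw [e1] at hx01
      linarith
    · have e1 : ((Cf : ℝ) / 2 + 7 * k + 13) * u = Cf * u / 2 + 7 * (k * u) + 13 * u := by ring
      rw [e1] at hx02
      have : 0 ≤ (Cf : ℝ) * u := by positivity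
      linarith
  obtain ⟨kk, hkk0, hkk1, hkk2⟩ := pow_near hu hkf
  have hpk : (0 : ℝ) < (1 / 2) ^ kk := by positivity
  have hx0l : ∀ l < k, |(L l x₀ x₀ - x₀) - (L l w w - w)| ≤ 2 * (ε * q) := fun l hl => by
    have h1 := rec_sl R (l := l) (by omega) hwn hx0n
    rw [hSl l hl, one_mul] at h1
    have e1 : L l x₀ x₀ - L l w w - (x₀ - w) = (L l x₀ x₀ - x₀) - (L l w w - w) := by ring
    rwa [e1] at h1
  have hCk : (Cf : ℝ) * (u / 2) ≤ Cf * (1 / 2) ^ kk :=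
    mul_le_mul_of_nonneg_left (by linarith) hCf0
  have hCk2 : (Cf : ℝ) * (1 / 2) ^ kk ≤ Cf * u := mul_le_mul_of_nonneg_left hkk2 hCf0
  have hkk : (k : ℝ) * (1 / 2) ^ kk ≤ k * u := mul_le_mul_of_nonneg_left hkk2 hk0
  have hkk' : (k : ℝ) * (u / 2) ≤ k * (1 / 2) ^ kk :=
    mul_le_mul_of_nonneg_left (by linarith) hk0
  have hcbe : cb * u = Cf * u + 7 * (k * u) + 13 * u := by rw [hcbR]; ring
  have hCfu : (2 * Λ + 7 * k + 15) * u ≤ Cf * u := mul_le_mul_of_nonneg_right hCf hu.le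
  have hCfe : (2 * Λ + 7 * k + 15) * u = 2 * (Λ * u) + 7 * (k * u) + 15 * u := by ring
  rw [hCfe] at hCfu
  have hx1' : w - (Cf * u + 7 / 2 * (k * u) + 6 * u - Λ * u) ≤ x₀ := by
    have e1 : (Cf + (7 * k + 12) / 2 - Λ) * u = Cf * u + 7 / 2 * (k * u) + 6 * u - Λ * u := by
      ring
    rwa [e1] at hx01
  have hx2' : x₀ ≤ w - (Cf * u / 2 + 7 * (k * u) + 13 * u) := by
    have e1 : ((Cf : ℝ) / 2 + 7 * k + 13) * u = Cf * u / 2 + 7 * (k * u) + 13 * u := by ring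
    rwa [e1] at hx02
  have hgr0 : grV M₀ cb w u 0 = w - cb * u := grV_zero _ _ _ _
  have huM : 0 < u / M₀ := by positivity
  have hsk0 : 0 < Sl k := by linarith
  have hsum : 3 * (u / M₀ + Sl k * (u / M₀) + Sl (k + 1) * (u / M₀)) ≤ φ := by
    have e1 : (1 + Sl k + Sl (k + 1)) * (u / M₀) = u / M₀ + Sl k * (u / M₀) +
        Sl (k + 1) * (u / M₀) := by ring
    rwa [e1] at hφM
  have hskM : 0 < Sl k * (u / M₀) := by positivity
  have hsM : 0 < Sl (k + 1) * (u / M₀) := by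
    have : 0 < Sl (k + 1) := by linarith
    positivity
  have hlad := rec_ladR R (M₀ := M₀) (cb := cb) (co := co) (w := w) (u := u) (φ := φ) hM hu hG hK2
    hε hSl hs1 (hs1.trans hs) hφ hφM (hFa.ch (k + 1) (by omega)) (fun j hj => by
      obtain ⟨rk, E, a1, a2, a3, a4, a5⟩ := hatt j hj
      exact ⟨rk, E, a1, a2, a3, by linarith, a5⟩)
  have hL1 : ∀ P' : ℝ, |P' - L (k + 1) w w| ≤ Λ * u → |P' - L (k + 1) t t| ≤ K * q := by
    intro P' h1
    have h2 := abs_le.1 h1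
    have h3 := abs_le.1 (R.dL (k + 1) (by omega) w hwn)
    have h4 : |Sl (k + 1) * (w - t)| = Sl (k + 1) * |w - t| := by
      rw [abs_mul, abs_of_nonneg (show 0 ≤ Sl (k + 1) by linarith)]
    have h5 := abs_le.1 (le_of_eq h4)
    have h6 : ε * q ≤ φ := by linarith
    rw [abs_le]
    constructor <;> linarith [h2.1, h2.2, h3.1, h3.2, h5.1, h5.2]
  refine ⟨fun i x => L i x x - 1 / 8 / 20 * (1 / 2) ^ kk, hlad, rec_img R, hs1, hs, hu, hwG,
    by linarith, by linarith, by linarith, by linarith, fun l hl => ⟨?_, ?_⟩,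
    fun v hv _ _ => ?_, fun v hv _ _ => ?_, fun v h1 h2 => ?_, fun P₁ P₂' h1 h2 h3 => ?_, ?_,
    fun i _ => ?_, fun Pd w₁ x' h1 h3 h3' h4 h5 h6 => ?_, fun w₁ v y h1 h2 h3 h4 => ?_,
    fun w₁ => ?_⟩
  · have h1 := hlow' (w - cb * u) (hnear _ (by linarith) (by linarith)) l hl
    show Λ * u ≤ L l (w - cb * u) (w - cb * u)
    linarith
  · have h1 := hroom (w + co * u) (hnear _ (by linarith) (by linarith)) l hl
    show L l (w + co * u) (w + co * u) + Λ * u ≤ 1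
    linarith
  · have h1 := rec_sl R (l := k) (by omega) hwn (hGn v hv)
    show |L k v v - L k w w - Sl k * (v - w)| ≤ φ
    linarith
  · have h1 := rec_sl R (l := k + 1) (by omega) hwn (hGn v hv)
    show |L (k + 1) v v - L (k + 1) w w - Sl (k + 1) * (v - w)| ≤ φ
    linarith
  · exact rec_lamg R hM hu hG hK2 (by linarith) (by linarith) h1 h2
  · have W' := R.tg (k + 1) (by omega) (by omega)
    have h4 := hlow' w hwn (k + 1) le_rfl
    have h5 := hroom w hwn (k + 1) le_rfl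
    have a1 := abs_le.1 h1
    have a2 := abs_le.1 h2
    refine rawN_of R.tmc R.rate (δ := ε * q) (by linarith [a1.1]) (by linarith [a2.2])
      (fun z hz0 hzy => ?_) hεq.le (by linarith)
    have h6 := R.row (P₁ + z) (P₁ + (P₂' - P₁)) (hL1 _ (by
      rw [abs_le]
      constructor <;> linarith [a1.1, a1.2, a2.1, a2.2])) (hL1 _ (by
      rw [abs_le]
      constructor <;> linarith [a1.1, a1.2, a2.1, a2.2])) (by linarith)
    have e1 : P₁ + (P₂' - P₁) - (P₁ + z) = P₂' - P₁ - z := by ring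
    rw [e1] at h6
    exact h6
  · obtain ⟨rk, E, a1, a2, a3, a4, a5⟩ := hatt (cb * M₀) hwj
    rw [hmid] at a4 a5
    exact ⟨rk, E, a2, a3, a5, by linarith⟩
  · show L i (w - cb * u) (w - cb * u) - 1 / 8 / 20 * (1 / 2) ^ kk ≤
      L i (w - cb * u) (w - cb * u) - φ
    linarith
  · refine fri_of (σ := 1 / 8) (κ := κ') (g := x₀) (G := G) (C := Cf) (k := kk) (q := u)
        (by push_cast; norm_num) rfl (hFa.free (by
          show k < k + 2
          omega) (fun l hl => hκ1 l hl) (by norm_num)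
          (by norm_num) (by exact_mod_cast hκ'0) kk hkk0) ⟨fun i => ?_, fun i => ?_,
            fun l i hli => ?_⟩ ?_ ?_ ?_ h3' ?_ ?_
    · have a1 := (h5 i).1
      have a2 := abs_le.1 (hx0l i i.2)
      show L i x₀ x₀ - x₀ ≤ Pd i
      change L i w w - w + u ≤ Pd i at a1
      linarith [a2.1, a2.2]
    · have a1 := (h5 i).2
      have a2 := abs_le.1 (hx0l i i.2)
      show (Pd i : ℝ) ≤ L i x₀ x₀ - x₀ + Cf * (1 / 2) ^ kk
      change (Pd i : ℝ) ≤ L i w w - w + Λ * u at a1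
      linarith [a2.1, a2.2]
    · have a1 := h6 l i hli
      have a2 := abs_le.1 (hx0l i i.2)
      have a3 := abs_le.1 (hx0l l l.2)
      show (Pd i : ℝ) - (L i x₀ x₀ - x₀) + 2 * ((1 / 8 : ℚ) : ℝ) * (1 / 2) ^ kk ≤
        Pd l - (L l x₀ x₀ - x₀)
      change (Pd i : ℝ) - (L i w w - w) + u / 2 ≤ Pd l - (L l w w - w) at a1
      push_cast
      linarith [a2.1, a2.2, a3.1, a3.2]
    · have := hG 0 (by omega)
      rwa [hgr0] at this
    · linarith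
    · unfold lagG
      have a1 : ((Cf : ℝ) + 7 * k + 13) * (1 / 2) ^ kk ≤ cb * u := by
        rw [hcbR]
        exact mul_le_mul_of_nonneg_left hkk2 (by positivity)
      linarith
    · unfold lstG
      have a2 : (2 * (Cf : ℝ) + 7 * k + 12) * (1 / 2) ^ kk = 2 * (Cf * (1 / 2) ^ kk) +
        7 * (k * (1 / 2) ^ kk) + 12 * (1 / 2) ^ kk := by ring
      rw [a2]
      linarith
    · exact mul_le_mul hκ'e hkk2 (by positivity) he0.le
  · refine nli_of (hNl ((Λ + 2) * u) (by positivity) hkn) (w := w) (Λ₀ := Λ) (q := u)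
      (by linarith) (by linarith) ?_ h1 h2 h3 h4
    have a2 : 1 / ((pn : ℝ) + 1) * ((Λ + 2) * u) = (Λ + 2) / (pn + 1) * u := by ring
    rw [a2]
    refine mul_le_mul_of_nonneg_right ?_ hu.le
    rw [div_le_iff₀ (by positivity)]
    exact hpn
  · obtain ⟨η, hη⟩ := hFa.rn
    exact ⟨η w₁, hη w₁⟩

end

end Pool.VW33
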