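import Pool.Agent.H33.VW.S
import Pool.Agent.H76.ST.ClsR

/-!
# Followers of one slope and a steeper target over slope-one places: the providers

`Lt`: the letters of a box, `Wt`: those of its charts, `Bw`: an event with ball windows. `Evp`: a
property of an event. `PIn Φ`: on a part of every large event with ball windows the property `Φ`, on all
its large parts. `ExK Hp`: the same for closed gradients over the followers, under `Hp`. `KInP Hp Φ`: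
the same for `Φ`, under `Hp` and the closed gradients. `ClsX`: such a property of a class from the box
alone. `TieT`: a property of the letters of the record, in a subclass.
-/

set_option autoImplicit false

namespace Pool.VW33

open Finset Real MvPolynomial
open Pool.Agent.H49.Ent Pool.Agent.H32.Dense
open Pool.STK hiding pr2
open Pool.KA Pool.KSAT Pool.K2S Pool.PB Pool.S6C
open Pool.GEN Pool.CHT Pool.CHX Pool.ISO Pool.LA91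
open Pool.RCD Pool.V0F Pool.V0S Pool.PKG
open Pool.T4C72 (WnT RadT)
open Pool.AJW (CfB)
open Pool.D2R (WinB)
open Pool.V0B19 (grS)

/-! ### The letters -/

/-- **The letters of a box**: the class, its places, the degrees `D` (labels of the class), `Km`
(gradients over the followers), `Dr` (closed polynomials of the balls, at least), the numbers of
digits, the grid, the windows `b` (far), `w` and `w₁` (record), the unit `u`, the room `Λ u`, the far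
digits `T u`, the closeness `φ u`, the error `eK` of the gradients over the followers, the parts `pm`,
the error `δ`. -/
structure Lt (m : ℕ) where
  S : PCl m
  c : ℕ → Fin m
  D : ℕ
  Km : ℕ
  Dr : ℕ
  sn : ℕ → ℝ → ℝ
  Gs : Set ℝ
  b : ℝ
  w : ℝ
  w₁ : ℚ
  u : ℝ
  Λ : ℝ
  T : ℝ
  φ : ℝ
  eK : ℝ
  pm : ℝ
  δ : ℝ

/-- The letters of the charts of a box: the windows `ow (fb t)`, `t ≤ nb`, and `ow (fn t)`, `t ≤ n`. -/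
structure Wt where
  Dr : ℕ
  N : ℕ
  M : ℕ
  C₀ : ℝ
  a : ℝ
  Eb : ℝ
  ηm : ℝ
  ow : ℕ → ℝ
  η : ℕ → ℝ
  σ : ℕ → ℝ
  lv : ℕ → ℕ → ℝ
  bb : ℕ → ℕ → ℝ
  fb : ℕ → ℕ
  fn : ℕ → ℕ
  nb : ℕ
  n : ℕ
  ks : ℕ

/-- The windows of the charts are those of the box. -/
def Wt.Ok {m : ℕ} (y : Wt) (x : Lt m) (k f : ℕ) (al : ℝ) : Prop :=
  x.Dr ≤ y.Dr ∧ WnT k f x.sn x.Gs al x.b x.w x.u x.Λ (x.φ * x.u) y.N y.C₀ y.Eb y.ηm y.ow y.lv y.fb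
    y.fn y.nb y.n y.ks

/-- The event `A` has ball windows. `κ`, `z`: the balls, `g₀`: the digits, `Gc`, `H`: the charts. -/
structure Bw {m J : ℕ} (F : Fam m J) (x : Lt m) (y : Wt) (k f : ℕ) (κ : ℝ) (z : ℕ → ℕ → ℕ)
    (A : F.Ω → Prop) (g₀ : ℕ → ℕ → ℕ) (Gc : ℕ → PtT F → ℕ → MvPolynomial (Option (Fin m)) ℝ)
    (H : ℕ → LnT F → ℕ → MvPolynomial (Option (Fin m)) ℝ) : Prop where
  win : WinB F x.c (k + f) x.D y.Dr y.N y.M y.C₀ y.a y.Eb y.ηm y.ow y.η y.σ y.lv y.bb κ z A g₀ Gc H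
  rad : RadT y.nb y.n y.M J x.u y.ow y.fb y.fn z
  cfb : ∀ l < k, CfB F ⌊x.b * J⌋₊ 1 (x.c l) A (fun s => s) (fun s => H (y.fb 0) s l)
  cfn : ∀ l, k ≤ l → l ≤ k + f →
    CfB F ⌊x.w * J⌋₊ 1 (x.c l) A (fun s => s) (fun s => H (y.fn 0) s l)

/-- A property of an event, its charts and the closed gradients `mu`. -/
def Evp (m : ℕ) : Type 1 := ∀ {J : ℕ} (F : Fam m J), Lt m → Wt → (A : F.Ω → Prop) → (ℕ → ℕ → ℕ) →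
  (ℕ → PtT F → ℕ → MvPolynomial (Option (Fin m)) ℝ) →
  (ℕ → LnT F → ℕ → MvPolynomial (Option (Fin m)) ℝ) → ℕ → (LnT F → ℕ → Polynomial ℝ) → Prop

/-! ### The inputs of the class theorem -/

/-- The followers are far-dead: to `nd` units of digits, up to the error `δ'`. -/
def FdP {m : ℕ} (k f : ℕ) (nd δ' : ℝ) : Evp m := fun {_} F x y A g₀ _ H _ _ =>
  FdE F x.c k f x.D x.sn nd x.b x.w x.u x.T δ' x.w₁ y.fb y.fn A (g₀ (y.fn 0)) H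

/-- The gradients over the followers are closed. -/
def KEp {m : ℕ} (k f : ℕ) (al be : ℝ) : Evp m := fun {_} F x y A g₀ Gc _ Wm mu =>
  KE F x.c k f x.Km y.n al be x.w x.u (x.φ * x.u) x.eK y.ow y.fb y.fn A (g₀ (y.fn 0)) Gc Wm mu

/-- The side path is few bits given the near path. -/
def SaP {m : ℕ} (k f : ℕ) (ns ym : ℝ) : Evp m := fun {_} F x y A g₀ _ H Wm mu =>
  SaE F x.c k f (x.D + 1) x.Km x.sn ns ym x.b x.w x.u (x.φ * x.u) x.δ (y.ow (y.fn y.n)) y.fb y.fn A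
    (g₀ (y.fn 0)) H Wm mu

/-- The codes of order at least one. -/
def DjP {m : ℕ} (k f : ℕ) (ξ ns ym : ℝ) : Evp m := fun {_} F x y A g₀ _ H Wm mu =>
  DjE F x.c k f (x.D + 1) x.Km x.sn ξ ns ym x.b x.w x.u x.T (x.φ * x.u) x.δ x.w₁ y.fb y.fn A
    (g₀ (y.fn 0)) H Wm mu

/-- The derivative of the path of the target. -/
def NtP {m : ℕ} (k f : ℕ) (ns ym : ℝ) : Evp m := fun {_} F x y A g₀ _ H Wm mu =>
  NtE F x.c k f (x.D + 1) x.Km x.sn ns ym x.b x.w x.u (x.φ * x.u) x.δ (y.ow (y.fn y.n)) y.fb y.fn A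
    (g₀ (y.fn 0)) H Wm mu

/-- No look-ahead, up to the window `w + jm u`. -/
def NlP {m : ℕ} (k f : ℕ) (ξ ns ym jm : ℝ) : Evp m := fun {_} F x y A g₀ Gc H Wm mu =>
  ∀ t ≤ y.n, y.ow (y.fn t) ≤ x.w + jm * x.u →
    NlE F x.c k f (x.D + 1) x.Km x.sn ξ ns ym x.b x.w x.u x.T (x.φ * x.u) x.δ x.w₁ (y.ow (y.fn t))
      y.fb y.fn A (g₀ (y.fn 0)) Gc H Wm mu

/-- The row of the target. -/
def RowP {m : ℕ} (k f : ℕ) (h ξ ns ym : ℝ) : Evp m := fun {_} F x y A g₀ Gc H Wm mu =>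
  RowE F x.c k f (x.D + 1) x.Km h ξ ns ym x.b x.w x.u (x.φ * x.u) x.pm x.δ x.w₁ y.fb y.fn A
    (g₀ (y.fn 0)) Gc H Wm mu

/-- Two properties. -/
def Evp.and {m : ℕ} (Φ Ψ : Evp m) : Evp m := fun {_} F x y A g₀ Gc H Wm mu =>
  Φ F x y A g₀ Gc H Wm mu ∧ Ψ F x y A g₀ Gc H Wm mu

/-- **All inputs** of the class theorem. -/
def InP {m : ℕ} (k f : ℕ) (al be h ξ ns ym jm : ℝ) : Evp m := fun {_} F x y A g₀ Gc H Wm mu =>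
  KEp k f al be F x y A g₀ Gc H Wm mu ∧ SaP k f ns ym F x y A g₀ Gc H Wm mu ∧
  DjP k f ξ ns ym F x y A g₀ Gc H Wm mu ∧ NtP k f ns ym F x y A g₀ Gc H Wm mu ∧
  NlP k f ξ ns ym jm F x y A g₀ Gc H Wm mu ∧ RowP k f h ξ ns ym F x y A g₀ Gc H Wm mu

/-! ### Properties of the events of a class -/

/-- The property `Φ` on all parts of `A` of relative probability at least `π`. -/
def OnP {m J : ℕ} (Φ : Evp m) (p₁ : ℝ) (F : Fam m J) (x : Lt m) (y : Wt) (A : F.Ω → Prop)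
    (g₀ : ℕ → ℕ → ℕ) (Gc : ℕ → PtT F → ℕ → MvPolynomial (Option (Fin m)) ℝ)
    (H : ℕ → LnT F → ℕ → MvPolynomial (Option (Fin m)) ℝ) (Wm : ℕ)
    (mu : LnT F → ℕ → Polynomial ℝ) : Prop :=
  ∀ B : F.Ω → Prop, Sub B A → p₁ * Pe F.p A ≤ Pe F.p B → Φ F x y B g₀ Gc H Wm mu

/-- **On a part of every large event with ball windows** the property `Φ`, for some gradients. -/
def ExIn {m : ℕ} (k f : ℕ) (al : ℝ) (Φ : Evp m) (x : Lt m) : Prop := ∀ y : Wt, y.Ok x k f al →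
  ∃ cT κT : ℝ, 0 < cT ∧ 0 < κT ∧ Bas x.S (fun J F A => ∀ {κ : ℝ} {z : ℕ → ℕ → ℕ}
    {g₀ : ℕ → ℕ → ℕ} {Gc : ℕ → PtT F → ℕ → MvPolynomial (Option (Fin m)) ℝ}
    {H : ℕ → LnT F → ℕ → MvPolynomial (Option (Fin m)) ℝ}, κ ≤ κT → Bw F x y k f κ z A g₀ Gc H →
    ∃ (B : F.Ω → Prop) (Wm : ℕ) (mu : LnT F → ℕ → Polynomial ℝ), Sub B A ∧
      cT * Pe F.p A ≤ Pe F.p B ∧ Φ F x y B g₀ Gc H Wm mu)

/-- **On a part of every large event with ball windows** the property `Φ`, on all its large parts. -/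
def PIn {m : ℕ} (k f : ℕ) (al : ℝ) (Φ : Evp m) (x : Lt m) : Prop := ∀ y : Wt, y.Ok x k f al →
  ∃ cT κT : ℝ, 0 < cT ∧ 0 < κT ∧ ∀ p₁ : ℝ, 0 < p₁ → Bas x.S (fun J F A => ∀ {κ : ℝ}
    {z : ℕ → ℕ → ℕ} {g₀ : ℕ → ℕ → ℕ} {Gc : ℕ → PtT F → ℕ → MvPolynomial (Option (Fin m)) ℝ}
    {H : ℕ → LnT F → ℕ → MvPolynomial (Option (Fin m)) ℝ}, κ ≤ κT → Bw F x y k f κ z A g₀ Gc H →
    ∃ B : F.Ω → Prop, Sub B A ∧ cT * Pe F.p A ≤ Pe F.p B ∧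
      ∀ (Wm : ℕ) (mu : LnT F → ℕ → Polynomial ℝ), OnP Φ p₁ F x y B g₀ Gc H Wm mu)

/-- **Closed gradients over the followers** on a part of every large event with ball windows and the
property `Hp` on all its large parts. -/
def ExK {m : ℕ} (k f : ℕ) (al be : ℝ) (Hp : Evp m) (x : Lt m) : Prop := ∀ y : Wt, y.Ok x k f al →
  ∃ cT κT p₂ : ℝ, 0 < cT ∧ 0 < κT ∧ 0 < p₂ ∧ Bas x.S (fun J F A => ∀ {κ : ℝ} {z : ℕ → ℕ → ℕ}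
    {g₀ : ℕ → ℕ → ℕ} {Gc : ℕ → PtT F → ℕ → MvPolynomial (Option (Fin m)) ℝ}
    {H : ℕ → LnT F → ℕ → MvPolynomial (Option (Fin m)) ℝ}, κ ≤ κT → Bw F x y k f κ z A g₀ Gc H →
    (∀ (Wm : ℕ) (mu : LnT F → ℕ → Polynomial ℝ), OnP Hp p₂ F x y A g₀ Gc H Wm mu) →
    ∃ (B : F.Ω → Prop) (Wm : ℕ) (mu : LnT F → ℕ → Polynomial ℝ), Sub B A ∧
      cT * Pe F.p A ≤ Pe F.p B ∧ KEp k f al be F x y B g₀ Gc H Wm mu)

/-- **On a part of every large event with ball windows, closed gradients over the followers and the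
property `Hp` on all large parts** the property `Φ`, on all its large parts. -/
def KInP {m : ℕ} (k f : ℕ) (al be : ℝ) (Hp Φ : Evp m) (x : Lt m) : Prop :=
  ∀ y : Wt, y.Ok x k f al → ∃ cT κT : ℝ, 0 < cT ∧ 0 < κT ∧ ∀ p₁ : ℝ, 0 < p₁ → ∃ p₂ : ℝ, 0 < p₂ ∧
  Bas x.S (fun J F A => ∀ {κ : ℝ} {z : ℕ → ℕ → ℕ} {g₀ : ℕ → ℕ → ℕ}
    {Gc : ℕ → PtT F → ℕ → MvPolynomial (Option (Fin m)) ℝ}
    {H : ℕ → LnT F → ℕ → MvPolynomial (Option (Fin m)) ℝ} {Wm : ℕ}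
    {mu : LnT F → ℕ → Polynomial ℝ}, κ ≤ κT → Bw F x y k f κ z A g₀ Gc H →
    OnP Hp p₂ F x y A g₀ Gc H Wm mu → KEp k f al be F x y A g₀ Gc H Wm mu →
    ∃ B : F.Ω → Prop, Sub B A ∧ cT * Pe F.p A ≤ Pe F.p B ∧ OnP Φ p₁ F x y B g₀ Gc H Wm mu)

/-- **A property of a class from the box alone.** `In Hp x`: the property (for instance
`KInP k f al be Hp Φ x`), `Fd nd δ'`: the hypothesis `Hp`, for numbers `nd`, `δ'` of its own. -/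
def ClsX (k f : ℕ) (al be h : ℝ) (Fd : ∀ m : ℕ, ℝ → ℝ → Evp m)
    (In : ∀ m : ℕ, Evp m → Lt m → Prop) : Prop :=
  ∀ D : ℕ, 1 ≤ D → ∃ Km₀ : ℕ, ∀ Km : ℕ, Km₀ ≤ Km → ∀ pm δ : ℝ, 0 < pm → 0 < δ →
  ∃ nd δ' T₁ : ℝ, 0 < δ' ∧ ∀ T : ℝ, T₁ ≤ T → ∃ e₀ : ℝ, 0 < e₀ ∧ ∀ eK : ℝ, 0 < eK → eK ≤ e₀ →
  ∃ (Λ₀ φs : ℝ) (Dr₀ : ℕ), 1 ≤ Λ₀ ∧ 0 < φs ∧ ∀ φ : ℝ, 0 < φ → φ ≤ φs → ∃ e₁ : ℝ, 0 < e₁ ∧
  ∀ (m : ℕ) {S : PCl m} {c : ℕ → Fin m} {sn sp : ℕ → ℝ → ℝ} {Gs : Set ℝ} {b o w u e : ℝ}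
    {lam : ℝ → ℝ} {w₁ : ℚ}, FBox S c k f sn sp Gs al be h b o w u Λ₀ (φ * u) e lam → 0 ≤ e →
    e ≤ e₁ → w ≤ w₁ → (w₁ : ℝ) ≤ w + φ * u →
    In m (Fd m nd δ') ⟨S, c, D, Km, Dr₀, sn, Gs, b, w, w₁, u, Λ₀, T, φ, eK, pm, δ⟩

/-! ### Properties of the records -/

/-- The letters of a record: the class, its places, the numbers of digits, the grid, the far window
`b`, the window `t`, the unit `q`, the room `Λ`, the closeness `φ`, the degree `Dr`. -/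
structure Lr (m : ℕ) where
  S : PCl m
  c : ℕ → Fin m
  sn : ℕ → ℝ → ℝ
  Gs : Set ℝ
  b : ℝ
  t : ℝ
  q : ℝ
  Λ : ℝ
  φ : ℝ
  Dr : ℕ

/-- The letters of the box `z = (ν, μ)` of a record: the window `t + (μ / ν) q`, the unit `q / ν`. -/
noncomputable def Lr.lt {m : ℕ} (x : Lr m) (z : ℕ × ℕ) (D Km : ℕ) (w₁ : ℚ) (T eK pm δ : ℝ) : Lt m :=
  ⟨x.S, x.c, D, Km, x.Dr, x.sn, x.Gs, x.b, x.t + (z.2 : ℝ) / z.1 * x.q, w₁, x.q / z.1, x.Λ, T, x.φ,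
    eK, pm, δ⟩

/-- The property `In` in the box `z`, for all windows `w₁` of the record. -/
def InZ {m : ℕ} (In : Lt m → Prop) (D Km : ℕ) (T eK pm δ : ℝ) (z : ℕ × ℕ) (x : Lr m) : Prop :=
  ∀ w₁ : ℚ, x.t + (z.2 : ℝ) / z.1 * x.q ≤ w₁ →
    (w₁ : ℝ) ≤ x.t + (z.2 : ℝ) / z.1 * x.q + x.φ * (x.q / z.1) → In (x.lt z D Km w₁ T eK pm δ)

/-- **(TIE)** A property `In` of the letters of the record, in a subclass, for the records of the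
slopes `Sl` and the kinds `κ`, with the property `Q` at the window `g` and at points near the window
`t`, under the condition `Z lam`. `Bh`: the boxes. Order of the constants: the pairs of windows `Ar`,
`Vr` of the record (in units `q`); `S₂`; `Λ₀` (the room), `φs`, `Dr₀`; `φ` (the closeness, in units);
`e` (the errors of the box, in units); the grid; `lam`, further windows `Vv`; `ε`. `Sa`: the class at
the window `g`, `S`: any subclass. -/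
def TieT (k f : ℕ) (h : ℝ) (Sl : ℕ → ℝ) (κ : ℕ → Kg) {ι Λ : Type}
    (Q : PropG (k + f + 1) ι) (Z : Λ → PropW (k + f + 1)) (al₀ K₀ : ℝ) (S₀ : ℕ)
    (Bh : Finset (ℕ × ℕ)) (In : Lr (k + f + 1) → Prop) : Prop :=
  ∃ (Kr : ℝ) (Nr : ℕ) (Ar Vr : ℕ → ℝ), 1 ≤ Kr ∧
    (∀ j < Nr, -Kr ≤ Vr j ∧ Vr j ≤ Ar j ∧ Ar j ≤ Kr) ∧
  ∀ S₂ : ℕ, S₀ ≤ S₂ → ∃ (Λ₀ φs : ℝ) (Dr₀ : ℕ), 1 ≤ Λ₀ ∧ 0 < φs ∧
  ∀ φ : ℝ, 0 < φ → φ ≤ φs → ∃ e : ℝ, 0 < e ∧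
  ∀ (M₀ cb co : ℕ), 1 ≤ M₀ → (∀ z ∈ Bh, z.1 ∣ M₀) → Λ₀ ≤ cb →
    (∀ z ∈ Bh, Λ₀ + (z.2 : ℝ) / z.1 ≤ co) → Λ₀ ≤ co →
  ∃ (lam : Λ) (K₁ : ℝ) (Nv : ℕ) (Vv : ℕ → ℝ), (∀ j < Nv, -K₁ ≤ Vv j ∧ Vv j ≤ K₁) ∧
  ∀ K' : ℝ, K₁ ≤ K' → ∃ ε₀ : ℝ, 0 < ε₀ ∧ ∀ ε : ℝ, 0 < ε → ε ≤ ε₀ →
  ∀ (Sa : PCl (k + f + 1)) (g₀ : ℝ → ℝ)
    (P : List (Fin (k + f + 1)) × Fin (k + f + 1) → ℝ → ℝ → ℝ)
    (θ : ℝ) (P₂ : ℕ → List (Fin (k + f + 1)) × Fin (k + f + 1) → ℝ → ℝ → ℝ) (θ₂ Eb e₂ : ℕ → ℝ)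
    (c : ℕ → Fin (k + f + 1)) (Pt : ℝ → ℝ → ℝ) (rt : ℝ → ℝ) (L Tb : ℕ → ℝ → ℝ → ℝ)
    (G : Set ℝ) (g : ℝ), IsClosed G → g ∈ G →
    (∀ l < k + f + 1, HasDerivAt (fun x => L l x x) (Sl l) g) →
    Z lam Sa P θ c Pt rt L Tb κ G g →
    ∃ (p : ℕ → ι) (M : ℕ) (B₀ B₁ : ℕ → ℝ), (∀ j < M, B₀ j < B₁ j) ∧ ∀ k₀ : ℕ → ℕ,
    (∀ j < M, Q (p j) (k₀ j) Sa P θ c Pt rt L Tb κ G g) → ∃ q₁ : ℝ, 0 < q₁ ∧
  ∀ {S : PCl (k + f + 1)} {N : ℕ} {A V : ℕ → ℝ} {N' : ℕ} {V' : ℕ → ℝ} {q t : ℝ} {x : ℕ → ℝ}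
    {φ' : ℝ} {lam' : ℝ → ℝ},
    (∀ (τ : ℝ) (J : ℕ) (F : Fam (k + f + 1) J) (A : F.Ω → Prop), S.St τ J F A →
      Sa.St τ J F A) → q < q₁ →
    (∀ j < M, x j ∈ G ∧ t + B₀ j * q ≤ x j ∧ x j ≤ t + B₁ j * q ∧
      Q (p j) (k₀ j) S P θ c Pt rt L Tb κ G (x j)) →
    RecG S al₀ g₀ P θ P₂ θ₂ Eb e₂ c Pt rt h K₀ g L Tb Sl κ G S₀ N A V S₂ N' V' K' ε q t →
    (∀ j < Nr, ∃ j' < N, A j' = Ar j ∧ V j' = Vr j) → (∀ j < Nv, ∃ j' < N', V' j' = Vv j) →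
    (∀ j < (cb + co) * M₀ + 1, ∃ j' < N', V' j' = chV M₀ cb j) →
    φ' ≤ e * q → q / M₀ ≤ φ' →
    (∃ sp : ℕ → ℝ → ℝ, ∀ φ'' : ℝ, φ' ≤ φ'' → 400 * φ'' ≤ q →
      FBox S c k f (fun l v => L l v v) sp (grS M₀ cb co t q) (Sl k) (Sl (k + f)) h (t - cb * q)
        (t + co * q) t q Λ₀ φ'' e lam') →
    (∀ z ∈ Bh, ∃ sp : ℕ → ℝ → ℝ, ∀ φ'' : ℝ, φ' ≤ φ'' → 400 * φ'' ≤ q / z.1 →
      FBox S c k f (fun l v => L l v v) sp (grS M₀ cb co t q) (Sl k) (Sl (k + f)) h (t - cb * q)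
        (t + co * q) (t + (z.2 : ℝ) / z.1 * q) (q / z.1) Λ₀ φ'' e lam') →
    ∃ S' : PCl (k + f + 1), S'.Ne ∧ (∀ (τ : ℝ) (J : ℕ) (F : Fam (k + f + 1) J)
      (A : F.Ω → Prop), S'.St τ J F A → S.St τ J F A) ∧
    In ⟨S', c, fun l v => L l v v, grS M₀ cb co t q, t - cb * q, t, q, Λ₀, φ, Dr₀⟩

end Pool.VW33
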