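import Pool.Agent.H33.VW.T2

/-!
# Followers of one slope and a steeper target over slope-one places: ties together

`FBox.mono`, `FBox.sub`. `LrMon`: monotony in the letters of the record. `TieT.and`: two ties.
`TieT.all`: ties in finitely many boxes. `clsx_tie`: a tie from the class.
-/

set_option autoImplicit false

namespace Pool.VW33

open Finset Real MvPolynomial
open Pool.Agent.H49.Ent Pool.Agent.H32.Dense
open Pool.STK hiding pr2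
open Pool.KA Pool.KSAT Pool.K2S Pool.PB Pool.S6C
open Pool.GEN Pool.CHT Pool.CHX Pool.ISO Pool.LA91
open Pool.RCD Pool.V0F Pool.V0S Pool.PKG
open Pool.V0B19 (grS)

/-! ### The box -/

/-- The box with less room and larger errors. -/
theorem FBox.mono {m : ℕ} {S : PCl m} {c : ℕ → Fin m} {k f : ℕ} {sn sp : ℕ → ℝ → ℝ} {G : Set ℝ}
    {al be h b o w u Λ Λ' φ e e' : ℝ} {lam : ℝ → ℝ}
    (B : FBox S c k f sn sp G al be h b o w u Λ φ e lam) (hΛ : Λ' ≤ Λ) (he : e ≤ e') :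
    FBox S c k f sn sp G al be h b o w u Λ' φ e' lam := by
  have hu := B.u0
  have h1 : Λ' * u ≤ Λ * u := mul_le_mul_of_nonneg_right hΛ hu.le
  have h0 : e * u ≤ e' * u := mul_le_mul_of_nonneg_right he hu.le
  refine ⟨B.lad, B.img, B.al1, B.alb, B.u0, B.wG, by linarith [B.bw], by linarith [B.wo],
    by linarith [B.o1], by linarith [B.b0], fun l hl => ⟨by linarith [(B.room l hl).1],
      by linarith [(B.room l hl).2]⟩, B.lin0, B.lin1, B.lamt,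
    fun P₁ P₂ h2 h3 h4 => B.row P₁ P₂ (h2.trans h1) (h3.trans h1) h4, ?_,
    B.spb, fun P w₁ x' h2 h3 h4 h5 h6 h7 => ?_, fun w₁ v y h2 h3 h4 h5 => ?_, B.rn⟩
  · obtain ⟨rk, E, g1, g2, g3, g4⟩ := B.att
    exact ⟨rk, E, g1, g2, g3, by linarith⟩
  · obtain ⟨k₂, h8, e₀, h9, h10⟩ := B.free P w₁ x' h2 h3 h4 (by linarith)
      (fun i => ⟨(h6 i).1, by linarith [(h6 i).2]⟩) h7
    refine ⟨k₂, h8, e₀, h9, fun K => (h10 K).mono 0 ?_⟩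
    intro J _ F A g V z V' z' m1 m2 u' hu'
    have h11 := g V z V' z' m1 m2 u' hu'
    have h12 := mul_le_mul_of_nonneg_right h0 (Nat.cast_nonneg (α := ℝ) J)
    linarith
  · obtain ⟨κ₁, h6, h7⟩ := B.nla w₁ v y h2 h3 h4 (by linarith)
    refine ⟨κ₁, h6, h7.mono 0 ?_⟩
    intro J _ F A g V z V' z' m1 m2
    have h11 := g V z V' z' m1 m2
    have h12 := mul_le_mul_of_nonneg_right h0 (Nat.cast_nonneg (α := ℝ) J)
    linarith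

/-- The box of a smaller class. -/
theorem FBox.sub {m : ℕ} {S S' : PCl m} {c : ℕ → Fin m} {k f : ℕ} {sn sp : ℕ → ℝ → ℝ} {G : Set ℝ}
    {al be h b o w u Λ φ e : ℝ} {lam : ℝ → ℝ}
    (B : FBox S c k f sn sp G al be h b o w u Λ φ e lam)
    (hs : ∀ (τ : ℝ) (J : ℕ) (F : Fam m J) (A : F.Ω → Prop), S'.St τ J F A → S.St τ J F A) :
    FBox S' c k f sn sp G al be h b o w u Λ φ e lam := by
  refine ⟨⟨?_, fun τ J F A hA => B.lad.pos τ J F A (hs τ J F A hA), B.lad.inj, ?_, ?_, B.lad.bG,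
      B.lad.oG, B.lad.b0, B.lad.bo, B.lad.o1, B.lad.φ0, B.lad.fm, B.lad.fl, B.lad.st, B.lad.eq⟩,
    B.img, B.al1, B.alb, B.u0, B.wG, B.bw, B.wo, B.o1, B.b0, B.room, B.lin0, B.lin1, B.lamt,
    fun P₁ P₂ h2 h3 h4 x h5 h6 => (B.row P₁ P₂ h2 h3 h4 x h5 h6).sub hs, ?_,
    B.spb, fun P w₁ x' h2 h3 h4 h5 h6 h7 => ?_, fun w₁ v y h2 h3 h4 h5 => ?_, fun w₁ => ?_⟩
  · obtain ⟨C₀, h⟩ := B.lad.tm
    exact ⟨C₀, fun τ J F A h0 hA => h τ J F A h0 (hs τ J F A hA)⟩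
  · exact B.lad.ch.sub hs
  · intro v hv
    obtain ⟨rk, E, g1, g2, g3, g4, g5⟩ := B.lad.att v hv
    refine ⟨rk, E, g1, g2, g3, g4, fun e he => ?_⟩
    obtain ⟨K, h⟩ := g5 e he
    exact ⟨K, h.sub hs⟩
  · obtain ⟨rk, E, g1, g2, g3, g4⟩ := B.att
    refine ⟨rk, E, g1, g2, fun e he => ?_, g4⟩
    obtain ⟨K, h⟩ := g3 e he
    exact ⟨K, h.sub hs⟩
  · obtain ⟨k₂, h8, e₀, h9, h10⟩ := B.free P w₁ x' h2 h3 h4 h5 h6 h7
    exact ⟨k₂, h8, e₀, h9, fun K => (h10 K).sub hs⟩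
  · obtain ⟨κ₁, h6, h7⟩ := B.nla w₁ v y h2 h3 h4 h5
    exact ⟨κ₁, h6, h7.sub hs⟩
  · obtain ⟨η, h⟩ := B.rn w₁
    exact ⟨η, h.sub hs⟩

/-! ### Two lists in one -/

/-- Two lists in one. -/
def cat2 {α : Type} (N : ℕ) (a b : ℕ → α) (j : ℕ) : α := if j < N then a j else b (j - N)

theorem cat2_l {α : Type} {N : ℕ} {a b : ℕ → α} {j : ℕ} (h : j < N) : cat2 N a b j = a j := by
  unfold cat2
  rw [if_pos h]

theorem cat2_r {α : Type} {N : ℕ} {a b : ℕ → α} {j : ℕ} : cat2 N a b (N + j) = b j := by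
  unfold cat2
  rw [if_neg (by omega), Nat.add_sub_cancel_left]

theorem cat2_cases {N M j : ℕ} (hj : j < N + M) : j < N ∨ ∃ i < M, j = N + i := by
  rcases lt_or_ge j N with h | h
  · exact Or.inl h
  · exact Or.inr ⟨j - N, by omega, by omega⟩

/-! ### Monotony in the letters of the record -/

/-- A property of the letters of the record passes to subclasses, to more room and to larger degrees
of the balls. -/
structure LrMon {m : ℕ} (In : Lr m → Prop) : Prop where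
  sub : ∀ (x : Lr m) (S' : PCl m), (∀ (τ : ℝ) (J : ℕ) (F : Fam m J) (A : F.Ω → Prop),
    S'.St τ J F A → x.S.St τ J F A) → In x → In { x with S := S' }
  dr : ∀ (x : Lr m) (d : ℕ), x.Dr ≤ d → In x → In { x with Dr := d }
  la : ∀ (x : Lr m) (Λ' : ℝ), x.Λ ≤ Λ' → 0 ≤ x.q → In x → In { x with Λ := Λ' }

theorem LrMon.and {m : ℕ} {In In' : Lr m → Prop} (h : LrMon In) (h' : LrMon In') :
    LrMon (fun x => In x ∧ In' x) where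
  sub := fun x S' hs H => ⟨h.sub x S' hs H.1, h'.sub x S' hs H.2⟩
  dr := fun x d hd H => ⟨h.dr x d hd H.1, h'.dr x d hd H.2⟩
  la := fun x Λ' hl hu H => ⟨h.la x Λ' hl hu H.1, h'.la x Λ' hl hu H.2⟩

theorem LrMon.ex {m : ℕ} {ι : Type} {R : ι → Prop} {In : ι → Lr m → Prop}
    (h : ∀ i, LrMon (In i)) : LrMon (fun x => ∃ i, R i ∧ In i x) where
  sub := fun x S' hs ⟨i, hi, H⟩ => ⟨i, hi, (h i).sub x S' hs H⟩
  dr := fun x d hd ⟨i, hi, H⟩ => ⟨i, hi, (h i).dr x d hd H⟩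
  la := fun x Λ' hl hu ⟨i, hi, H⟩ => ⟨i, hi, (h i).la x Λ' hl hu H⟩

theorem LrMon.all {m : ℕ} {ι : Type} {R : ι → Prop} {In : ι → Lr m → Prop}
    (h : ∀ i, LrMon (In i)) : LrMon (fun x => ∀ i, R i → In i x) where
  sub := fun x S' hs H i hi => (h i).sub x S' hs (H i hi)
  dr := fun x d hd H i hi => (h i).dr x d hd (H i hi)
  la := fun x Λ' hl hu H i hi => (h i).la x Λ' hl hu (H i hi)

theorem mon_inz {m : ℕ} {In : Lt m → Prop} (h : InMon In) {D Km : ℕ} {T eK pm δ : ℝ}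
    {z : ℕ × ℕ} : LrMon (InZ In D Km T eK pm δ z) where
  sub := fun x S' hs H w₁ h1 h2 => h.sub (x.lt z D Km w₁ T eK pm δ) S' hs (H w₁ h1 h2)
  dr := fun x d hd H w₁ h1 h2 => h.dr (x.lt z D Km w₁ T eK pm δ) d hd (H w₁ h1 h2)
  la := fun x Λ' hl hu H w₁ h1 h2 => h.la (x.lt z D Km w₁ T eK pm δ) Λ' hl
    (div_nonneg hu (Nat.cast_nonneg _)) (H w₁ h1 h2)

/-! ### The ties -/

section

variable {k f : ℕ} {h : ℝ} {Sl : ℕ → ℝ} {κ : ℕ → Kg} {ι ι' Λ Λ' : Type}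
  {Q : PropG (k + f + 1) ι} {Q' : PropG (k + f + 1) ι'} {Z : Λ → PropW (k + f + 1)}
  {Z' : Λ' → PropW (k + f + 1)} {al₀ K₀ : ℝ} {S₀ : ℕ} {Bh : Finset (ℕ × ℕ)}
  {In In' : Lr (k + f + 1) → Prop}

/-- A weaker property of the letters, more boxes. -/
theorem TieT.imp (H : TieT k f h Sl κ Q Z al₀ K₀ S₀ Bh In) {Bh' : Finset (ℕ × ℕ)}
    (hB : Bh ⊆ Bh') (h1 : ∀ x : Lr (k + f + 1), In x → In' x) :
    TieT k f h Sl κ Q Z al₀ K₀ S₀ Bh' In' := by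
  obtain ⟨Kr, Nr, Ar, Vr, hKr, hAV, H⟩ := H
  refine ⟨Kr, Nr, Ar, Vr, hKr, hAV, fun S₂ hS₂ => ?_⟩
  obtain ⟨Λ₀, φs, Dr₀, hΛ, hφ, H⟩ := H S₂ hS₂
  refine ⟨Λ₀, φs, Dr₀, hΛ, hφ, fun φ hφ0 hφ1 => ?_⟩
  obtain ⟨e, he, H⟩ := H φ hφ0 hφ1
  refine ⟨e, he, fun M₀ cb co hM hdv hcb hco hco' => ?_⟩
  obtain ⟨lam, K₁, Nv, Vv, hVv, H⟩ := H M₀ cb co hM (fun z hz => hdv z (hB hz)) hcb
    (fun z hz => hco z (hB hz)) hco'
  refine ⟨lam, K₁, Nv, Vv, hVv, fun K' hK' => ?_⟩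
  obtain ⟨ε₀, hε₀, H⟩ := H K' hK'
  refine ⟨ε₀, hε₀, fun ε hε0 hε1 Sa g₀ P θ P₂ θ₂ Eb e₂ c Pt rt L Tb G g hG hgG hder hZ => ?_⟩
  obtain ⟨p, M, B₀, B₁, hB', H⟩ := H ε hε0 hε1 Sa g₀ P θ P₂ θ₂ Eb e₂ c Pt rt L Tb G g hG hgG hder hZ
  refine ⟨p, M, B₀, B₁, hB', fun k₀ hk₀ => ?_⟩
  obtain ⟨q₁, hq₁, H⟩ := H k₀ hk₀
  refine ⟨q₁, hq₁, fun hs hq hx R hr1 hr2 hr3 hp0 hp1 hF hFz => ?_⟩
  obtain ⟨S', hne, hs', hin⟩ := H hs hq hx R hr1 hr2 hr3 hp0 hp1 hF fun z hz => hFz z (hB hz)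
  exact ⟨S', hne, hs', h1 _ hin⟩

/-- **Two ties** at one record. -/
theorem TieT.and {Bh' : Finset (ℕ × ℕ)} (H : TieT k f h Sl κ Q Z al₀ K₀ S₀ Bh In)
    (H' : TieT k f h Sl κ Q' Z' al₀ K₀ S₀ Bh' In') (hQ' : HerQ Q')
    (hm : LrMon In) (hm' : LrMon In') :
    TieT k f h Sl κ (sumQ Q Q') (fun l : Λ × Λ' => AndW (Z l.1) (Z' l.2)) al₀ K₀ S₀ (Bh ∪ Bh')
      (fun x => In x ∧ In' x) := by
  obtain ⟨Kr, Nr, Ar, Vr, hKr, hAV, H⟩ := H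
  obtain ⟨Kr', Nr', Ar', Vr', hKr', hAV', H'⟩ := H'
  refine ⟨max Kr Kr', Nr + Nr', cat2 Nr Ar Ar', cat2 Nr Vr Vr', hKr.trans (le_max_left _ _),
    fun j hj => ?_, fun S₂ hS₂ => ?_⟩
  · have a1 := le_max_left Kr Kr'
    have a2 := le_max_right Kr Kr'
    rcases cat2_cases hj with h1 | ⟨i, hi, rfl⟩
    · rw [cat2_l h1, cat2_l h1]
      obtain ⟨b1, b2, b3⟩ := hAV j h1
      exact ⟨by linarith, b2, by linarith⟩
    · rw [cat2_r, cat2_r]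
      obtain ⟨b1, b2, b3⟩ := hAV' i hi
      exact ⟨by linarith, b2, by linarith⟩
  obtain ⟨Λ₀, φs, Dr₀, hΛ, hφs, H⟩ := H S₂ hS₂
  obtain ⟨Λ₀', φs', Dr₀', hΛ', hφs', H'⟩ := H' S₂ hS₂
  refine ⟨max Λ₀ Λ₀', min φs φs', max Dr₀ Dr₀', hΛ.trans (le_max_left _ _), lt_min hφs hφs',
    fun φ hφ0 hφ1 => ?_⟩
  obtain ⟨e, he, H⟩ := H φ hφ0 (hφ1.trans (min_le_left _ _))
  obtain ⟨e', he', H'⟩ := H' φ hφ0 (hφ1.trans (min_le_right _ _))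
  refine ⟨min e e', lt_min he he', fun M₀ cb co hM hdv hcb hco hco' => ?_⟩
  have hl := le_max_left Λ₀ Λ₀'
  have hl' := le_max_right Λ₀ Λ₀'
  have hc1 : ∀ z ∈ Bh, Λ₀ + (z.2 : ℝ) / z.1 ≤ co := fun z hz => by
    have h1 := hco z (mem_union_left _ hz)
    linarith
  have hc2 : ∀ z ∈ Bh', Λ₀' + (z.2 : ℝ) / z.1 ≤ co := fun z hz => by
    have h1 := hco z (mem_union_right _ hz)
    linarith
  obtain ⟨lam, K₁, Nv, Vv, hVv, H⟩ := H M₀ cb co hM (fun z hz => hdv z (mem_union_left _ hz))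
    (hl.trans hcb) hc1 (hl.trans hco')
  obtain ⟨lam', K₁', Nv', Vv', hVv', H'⟩ := H' M₀ cb co hM (fun z hz => hdv z
    (mem_union_right _ hz)) (hl'.trans hcb) hc2 (hl'.trans hco')
  refine ⟨(lam, lam'), max K₁ K₁', Nv + Nv', cat2 Nv Vv Vv', fun j hj => ?_, fun K' hK' => ?_⟩
  · have a1 := le_max_left K₁ K₁'
    have a2 := le_max_right K₁ K₁'
    rcases cat2_cases hj with h1 | ⟨i, hi, rfl⟩
    · rw [cat2_l h1]
      obtain ⟨b1, b2⟩ := hVv j h1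
      exact ⟨by linarith, by linarith⟩
    · rw [cat2_r]
      obtain ⟨b1, b2⟩ := hVv' i hi
      exact ⟨by linarith, by linarith⟩
  obtain ⟨ε₀, hε₀, H⟩ := H K' ((le_max_left _ _).trans hK')
  obtain ⟨ε₀', hε₀', H'⟩ := H' K' ((le_max_right _ _).trans hK')
  refine ⟨min ε₀ ε₀', lt_min hε₀ hε₀', fun ε hε0 hε1 Sa g₀ P θ P₂ θ₂ Eb e₂ c Pt rt L Tb G g hG
    hgG hder hZ => ?_⟩
  obtain ⟨p, M, B₀, B₁, hB, H⟩ := H ε hε0 (hε1.trans (min_le_left _ _)) Sa g₀ P θ P₂ θ₂ Eb e₂ c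
    Pt rt L Tb G g hG hgG hder hZ.1
  obtain ⟨p', M', B₀', B₁', hB', H'⟩ := H' ε hε0 (hε1.trans (min_le_right _ _)) Sa g₀ P θ P₂ θ₂ Eb
    e₂ c Pt rt L Tb G g hG hgG hder hZ.2
  refine ⟨cat2 M (fun j => Sum.inl (p j)) (fun j => Sum.inr (p' j)), M + M', cat2 M B₀ B₀',
    cat2 M B₁ B₁', fun j hj => ?_, fun k₀ hk₀ => ?_⟩
  · rcases cat2_cases hj with h1 | ⟨i, hi, rfl⟩
    · rw [cat2_l h1, cat2_l h1]
      exact hB j h1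
    · rw [cat2_r, cat2_r]
      exact hB' i hi
  obtain ⟨q₁, hq₁, H⟩ := H k₀ fun j hj => by
    have h1 := hk₀ j (by omega)
    rw [cat2_l hj] at h1
    exact h1
  obtain ⟨q₁', hq₁', H'⟩ := H' (fun j => k₀ (M + j)) fun j hj => by
    have h1 := hk₀ (M + j) (by omega)
    rw [cat2_r] at h1
    exact h1
  refine ⟨min q₁ q₁', lt_min hq₁ hq₁', ?_⟩
  intro S N A V N' V' q t x φ' lam₁ hs hq hx R hr1 hr2 hr3 hp1 hpM hF hFz
  have hq0 := R.q0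
  have he1 : min e e' ≤ e := min_le_left _ _
  have he2 : min e e' ≤ e' := min_le_right _ _
  obtain ⟨S₁, hne, hs₁, hin⟩ := H (x := x) (lam' := lam₁) hs (hq.trans_le (min_le_left _ _))
    (fun j hj => by
      have h1 := hx j (by omega)
      rw [cat2_l hj, cat2_l hj, cat2_l hj] at h1
      exact h1) R (fun j hj => by
      have h1 := hr1 j (by omega)
      rw [cat2_l hj, cat2_l hj] at h1
      exact h1) (fun j hj => by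
      have h1 := hr2 j (by omega)
      rw [cat2_l hj] at h1
      exact h1) hr3 (hp1.trans (mul_le_mul_of_nonneg_right he1 hq0.le)) hpM (by
      obtain ⟨sp, h1⟩ := hF
      exact ⟨sp, fun φ'' h2 h3 => (h1 φ'' h2 h3).mono hl he1⟩) (fun z hz => by
      obtain ⟨sp, h1⟩ := hFz z (mem_union_left _ hz)
      exact ⟨sp, fun φ'' h2 h3 => (h1 φ'' h2 h3).mono hl he1⟩)
  obtain ⟨S₂', hne₂, hs₂, hin'⟩ := H' (x := fun j => x (M + j)) (lam' := lam₁)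
    (fun τ J F A hA => hs τ J F A (hs₁ τ J F A hA)) (hq.trans_le (min_le_right _ _))
    (fun j hj => by
      have h1 := hx (M + j) (by omega)
      rw [cat2_r, cat2_r, cat2_r] at h1
      exact ⟨h1.1, h1.2.1, h1.2.2.1, hQ' _ _ _ _ _ _ _ _ _ _ _ _ _ _ hs₁ h1.2.2.2⟩)
    (R.sub hne hs₁) (fun j hj => by
      have h1 := hr1 (Nr + j) (by omega)
      rw [cat2_r, cat2_r] at h1
      exact h1) (fun j hj => by
      have h1 := hr2 (Nv + j) (by omega)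
      rw [cat2_r] at h1
      exact h1) hr3 (hp1.trans (mul_le_mul_of_nonneg_right he2 hq0.le)) hpM (by
      obtain ⟨sp, h1⟩ := hF
      exact ⟨sp, fun φ'' h2 h3 => ((h1 φ'' h2 h3).sub hs₁).mono hl' he2⟩) (fun z hz => by
      obtain ⟨sp, h1⟩ := hFz z (mem_union_right _ hz)
      exact ⟨sp, fun φ'' h2 h3 => ((h1 φ'' h2 h3).sub hs₁).mono hl' he2⟩)
  refine ⟨S₂', hne₂, fun τ J F A hA => hs₁ τ J F A (hs₂ τ J F A hA), ?_, ?_⟩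
  · exact hm.dr _ _ (le_max_left _ _) (hm.la _ _ hl hq0.le (hm.sub _ S₂' hs₂ hin))
  · exact hm'.dr _ _ (le_max_right _ _) (hm'.la _ _ hl' hq0.le hin')

/-- **A tie from the class**: no windows, no property of the record. -/
theorem tieT_box (In : Lr (k + f + 1) → Prop) {Λ₀ φs : ℝ} {Dr₀ : ℕ} (hΛ : 1 ≤ Λ₀) (hφs : 0 < φs)
    (H : ∀ φ : ℝ, 0 < φ → φ ≤ φs → ∃ e : ℝ, 0 < e ∧ ∀ {S : PCl (k + f + 1)}
      {c : ℕ → Fin (k + f + 1)} {sn : ℕ → ℝ → ℝ} {Gs : Set ℝ} {b o t q φ' : ℝ} {lam : ℝ → ℝ},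
      0 < q → φ' ≤ e * q →
      (∃ sp : ℕ → ℝ → ℝ, ∀ φ'' : ℝ, φ' ≤ φ'' → 400 * φ'' ≤ q →
        FBox S c k f sn sp Gs (Sl k) (Sl (k + f)) h b o t q Λ₀ φ'' e lam) →
      (∀ z ∈ Bh, ∃ sp : ℕ → ℝ → ℝ, ∀ φ'' : ℝ, φ' ≤ φ'' → 400 * φ'' ≤ q / z.1 →
        FBox S c k f sn sp Gs (Sl k) (Sl (k + f)) h b o (t + (z.2 : ℝ) / z.1 * q) (q / z.1) Λ₀
          φ'' e lam) →
      In ⟨S, c, sn, Gs, b, t, q, Λ₀, φ, Dr₀⟩) (Q : PropG (k + f + 1) ι) (p₀ : ι) :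
    TieT k f h Sl κ Q (fun _ : Unit => TruW (k + f + 1)) al₀ K₀ S₀ Bh In := by
  refine ⟨1, 0, fun _ => 0, fun _ => 0, le_rfl, fun j hj => absurd hj (Nat.not_lt_zero j),
    fun S₂ _ => ⟨Λ₀, φs, Dr₀, hΛ, hφs, fun φ hφ0 hφ1 => ?_⟩⟩
  obtain ⟨e, he, H⟩ := H φ hφ0 hφ1
  refine ⟨e, he, fun M₀ cb co _ _ _ _ _ => ⟨(), 0, 0, fun _ => 0,
    fun j hj => absurd hj (Nat.not_lt_zero j), fun K' _ => ⟨1, one_pos, fun ε _ _ Sa g₀ P θ P₂ θ₂ Eb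
      e₂ c Pt rt L Tb G g _ _ _ _ => ⟨fun _ => p₀, 0, fun _ => 0, fun _ => 0,
      fun j hj => absurd hj (Nat.not_lt_zero j), fun k₀ _ => ⟨1, one_pos, ?_⟩⟩⟩⟩⟩
  intro S N A V N' V' q t x φ' lam₁ hs hq hx R hr1 hr2 hr3 hp1 hpM hF hFz
  exact ⟨S, R.ne, fun _ _ _ _ h => h, H R.q0 hp1 hF hFz⟩

/-- Other names of the properties. -/
theorem TieT.map (H : TieT k f h Sl κ Q Z al₀ K₀ S₀ Bh In) (gq : ι → ι') (gz : Λ → Λ')
    (hg : ∀ (p : ι) (k₀ : ℕ) (S : PCl (k + f + 1))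
      (P : List (Fin (k + f + 1)) × Fin (k + f + 1) → ℝ → ℝ → ℝ) (θ : ℝ) (c : ℕ → Fin (k + f + 1))
      (Pt : ℝ → ℝ → ℝ) (r : ℝ → ℝ) (L T : ℕ → ℝ → ℝ → ℝ) (κ : ℕ → Kg) (G : Set ℝ) (x : ℝ),
      Q' (gq p) k₀ S P θ c Pt r L T κ G x → Q p k₀ S P θ c Pt r L T κ G x)
    (hg' : ∀ (l : Λ) (S : PCl (k + f + 1))
      (P : List (Fin (k + f + 1)) × Fin (k + f + 1) → ℝ → ℝ → ℝ) (θ : ℝ) (c : ℕ → Fin (k + f + 1))
      (Pt : ℝ → ℝ → ℝ) (r : ℝ → ℝ) (L T : ℕ → ℝ → ℝ → ℝ) (κ : ℕ → Kg) (G : Set ℝ) (x : ℝ),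
      Z' (gz l) S P θ c Pt r L T κ G x → Z l S P θ c Pt r L T κ G x) :
    TieT k f h Sl κ Q' Z' al₀ K₀ S₀ Bh In := by
  obtain ⟨Kr, Nr, Ar, Vr, hKr, hAV, H⟩ := H
  refine ⟨Kr, Nr, Ar, Vr, hKr, hAV, fun S₂ hS₂ => ?_⟩
  obtain ⟨Λ₀, φs, Dr₀, hΛ, hφ, H⟩ := H S₂ hS₂
  refine ⟨Λ₀, φs, Dr₀, hΛ, hφ, fun φ hφ0 hφ1 => ?_⟩
  obtain ⟨e, he, H⟩ := H φ hφ0 hφ1
  refine ⟨e, he, fun M₀ cb co hM hdv hcb hco hco' => ?_⟩
  obtain ⟨lam, K₁, Nv, Vv, hVv, H⟩ := H M₀ cb co hM hdv hcb hco hco'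
  refine ⟨gz lam, K₁, Nv, Vv, hVv, fun K' hK' => ?_⟩
  obtain ⟨ε₀, hε₀, H⟩ := H K' hK'
  refine ⟨ε₀, hε₀, fun ε hε0 hε1 Sa g₀ P θ P₂ θ₂ Eb e₂ c Pt rt L Tb G g hG hgG hder hZ => ?_⟩
  obtain ⟨p, M, B₀, B₁, hB', H⟩ := H ε hε0 hε1 Sa g₀ P θ P₂ θ₂ Eb e₂ c Pt rt L Tb G g hG hgG hder
    (hg' _ _ _ _ _ _ _ _ _ _ _ _ hZ)
  refine ⟨fun j => gq (p j), M, B₀, B₁, hB', fun k₀ hk₀ => ?_⟩
  obtain ⟨q₁, hq₁, H⟩ := H k₀ fun j hj => hg _ _ _ _ _ _ _ _ _ _ _ _ _ (hk₀ j hj)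
  refine ⟨q₁, hq₁, fun hs hq hx R hr1 hr2 hr3 hp0 hp1 hF hFz => ?_⟩
  exact H hs hq (fun j hj => ⟨(hx j hj).1, (hx j hj).2.1, (hx j hj).2.2.1,
    hg _ _ _ _ _ _ _ _ _ _ _ _ _ (hx j hj).2.2.2⟩) R hr1 hr2 hr3 hp0 hp1 hF hFz

/-- All conditions of a list. -/
def LsW {n : ℕ} {Λ : Type} (Z : Λ → PropW n) (l : List Λ) : PropW n :=
  fun S P θ c Pt r L T κ G g => ∀ a ∈ l, Z a S P θ c Pt r L T κ G g

/-- **Ties in finitely many boxes**, with one property of the records. -/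
theorem TieT.all (hQ : HerQ Q) {In : ℕ × ℕ → Lr (k + f + 1) → Prop} (hm : ∀ z, LrMon (In z))
    (Bx : Finset (ℕ × ℕ)) (H : ∀ z ∈ Bx, TieT k f h Sl κ Q Z al₀ K₀ S₀ {z} (In z)) (p₀ : ι) :
    TieT k f h Sl κ Q (LsW Z) al₀ K₀ S₀ Bx (fun x => ∀ z, z ∈ Bx → In z x) := by
  classical
  induction Bx using Finset.induction_on with
  | empty =>
    refine (tieT_box (fun x => ∀ z, z ∈ (∅ : Finset (ℕ × ℕ)) → In z x) (Λ₀ := 1) (φs := 1)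
      (Dr₀ := 0) le_rfl one_pos (fun φ _ _ => ⟨1, one_pos, fun _ _ _ _ z hz => by simp at hz⟩)
      Q p₀).map id (fun _ => []) (fun _ _ _ _ _ _ _ _ _ _ _ _ _ h => h)
      (fun _ _ _ _ _ _ _ _ _ _ _ _ _ => trivial)
  | insert z Bx hz ih =>
    have h1 := (H z (mem_insert_self _ _)).and (ih fun w hw => H w (mem_insert_of_mem hw)) hQ
      (hm z) (LrMon.all (R := fun w => w ∈ Bx) fun w => hm w)
    refine (h1.imp (In' := fun x => ∀ w, w ∈ insert z Bx → In w x) (Bh' := insert z Bx) ?_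
      ?_).map (Sum.elim id id) (fun l => l.1 :: l.2) ?_ ?_
    · intro w hw
      rw [mem_union, mem_singleton] at hw
      rw [mem_insert]
      exact hw
    · rintro x ⟨a1, a2⟩ w hw
      rcases mem_insert.1 hw with rfl | hw
      · exact a1
      · exact a2 w hw
    · rintro (p | p) _ _ _ _ _ _ _ _ _ _ _ _ hp
      · exact hp
      · exact hp
    · intro l _ _ _ _ _ _ _ _ _ _ _ hl
      exact ⟨hl _ (List.mem_cons_self), fun a ha => hl a (List.mem_cons_of_mem _ ha)⟩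

end

end Pool.VW33
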