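import Pool.Agent.H87.V0S.Gp4

/-!
# The relative gradient over two windows

`gnh_tel`: the gradients of the charts of the windows `f ks` and `f n` at one sample are near.
-/

set_option autoImplicit false

namespace Pool.VW33

open Finset Real MvPolynomial
open Pool.Agent.H49.Ent Pool.Agent.H32.Dense Pool.STK Pool.KA Pool.KSAT Pool.K2S Pool.PB Pool.S6C
open Pool.GEN Pool.CHT Pool.CHX Pool.ISO Pool.D2R Pool.V0S

/-- **The gradients over two windows.** -/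
theorem gnh_tel (D r : ℕ) : ∃ C : ℕ, 1 ≤ C ∧ ∀ {m J : ℕ} {F : Fam m J} {c : ℕ → Fin m}
    {Dr N M : ℕ} {C₀ a Eb ηm : ℝ} {o η σ : ℕ → ℝ} {lv b : ℕ → ℕ → ℝ}
    {κ : ℝ} {z : ℕ → ℕ → ℕ} {B : F.Ω → Prop} {g₀ : ℕ → ℕ → ℕ}
    {G : ℕ → PtT F → ℕ → MvPolynomial (Option (Fin m)) ℝ}
    {H : ℕ → LnT F → ℕ → MvPolynomial (Option (Fin m)) ℝ}
    (_ : WinB F c r D Dr N M C₀ a Eb ηm o η σ lv b κ z B g₀ G H)
    {G' : PtT F → ℕ → MvPolynomial (Option (Fin m)) ℝ} {κ' : F.Ω → ℕ → ℝ}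
    {f jj : ℕ → ℕ} {n ks k i X Y : ℕ} {s σ' : ℝ},
    Frm F c k i D Y B (G (f 0)) (g₀ (f 0)) ⌊o (f 0) * J⌋₊ G' κ' →
    Set.InjOn c (Set.Iio (r + 1)) → i ≤ r → k ≤ i → WDs o lv z J N M f jj n k i Y s σ' →
    C₀ * (ηm * J) ≤ Y → 3 ≤ Y → ks ≤ n →
    (X : ℝ) ≤ (σ' - s) * ((o (f ks) - o (f 0)) * J) + Y →
    ∀ ω, B ω → ∀ j < i, |gnh F c i (g₀ (f 0)) G' (G (f n)) ω j -
      gnh F c i (g₀ (f 0)) G' (G (f ks)) ω j| ≤ 2 ^ (C * Y) / 2 ^ X := by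
  obtain ⟨C, hC, hpt⟩ := pt_tg D r
  refine ⟨C, hC, ?_⟩
  intro m J F c Dr N M C₀ a Eb ηm o η σ lv b κ z B g₀ G H W G' κ' f jj n ks k i X Y s σ' T hc hi
    hki V hY hY3 hks hX ω hω j hj
  have hs0 := V.s0
  have hsσ := V.sσ
  obtain ⟨sn, hsn⟩ : ∃ sn : ℝ, sn = (o (f n) - o (f 0)) * J := ⟨_, rfl⟩
  have hsn0 : 0 ≤ sn := by
    rw [hsn]
    exact V.omeJ (Nat.zero_le _) le_rfl
  obtain ⟨q, hq⟩ : ∃ q : ℕ, q = ⌈s * sn⌉₊ + X + 2 := ⟨_, rfl⟩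
  have hqR : s * sn + X + 2 ≤ q := by
    rw [hq]
    push_cast
    linarith [Nat.le_ceil (s * sn)]
  have hssn : 0 ≤ s * sn := mul_nonneg hs0 hsn0
  have hY0 : (0 : ℝ) ≤ Y := Nat.cast_nonneg Y
  have hX0 : (0 : ℝ) ≤ X := Nat.cast_nonneg X
  have h1 := hpt W (G' := G') (κ' := κ') (f := f) (jj := jj) (n := n) (k := k) (i := i) (l := i)
    (q := q) (X := X) (Y := Y) (S := s) (b' := σ') T hc hi hki le_rfl
    V.toWDt hY hY3 hs0 hsσ (by rw [hq]; omega)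
    (by rw [← hsn]; linarith) (by linarith)
    (by
      rw [← hsn]
      have e1 : (σ' - 2 * s) * sn = (σ' - s) * sn - s * sn := by ring
      have e2 : 0 ≤ (σ' - s) * sn := mul_nonneg (by linarith) hsn0
      rw [e1]
      linarith) ω hω (bt F ω) rfl
    (fun j _ => by rw [sub_self, abs_zero]; positivity)
  have h2 := h1.2.2.2 ks hks hX j hj
  unfold gnh
  rw [← mul_sub]
  exact gnh_abs h2

end Pool.VW33
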